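import Pool.Agent.H462.CTU.Law.Fin

/-!
# The squarefree primary elements are equidistributed modulo nine
-/

set_option autoImplicit false

open scoped Classical
open Finset Filter

namespace Pool.Agent.H462.CTU.Law.Equ

open Pool.Agent.Y692.QS (Ei w nr nr_nonneg)
open Pool.Agent.Y715.T.RecG (Pq)
open Pool.Agent.Y699.E
open Pool.Agent.H462.CTU.Chr (nq)
open Pool.Agent.H462.CTU.Law (yab ch9 xab_cases yab_ch chs_le_c)

/-- not divisible by the squares of the elements of `P` -/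
def fr (P : Finset Ei) (n : Ei) : Prop := ∀ π ∈ P, ¬ π ^ 2 ∣ n

lemma PB_zero : PB 0 = ∅ := by
  rw [eq_empty_iff_forall_notMem]
  intro d hd
  rw [mem_PB] at hd
  have := nrm_pos' (prm_ne_zero hd.2)
  omega

lemma prm_sq {π : Ei} (h : Pq π) : prm (π ^ 2) := by
  rw [sq]
  exact prm_mul h.three h.three

lemma mul_mem {ρ : Ei} (hρ : Pq ρ) {v : ℕ} {m : Ei} :
    ρ ^ 2 * m ∈ PB v ↔ m ∈ PB (v / nrm (ρ ^ 2)) := by
  rw [mem_PB, mem_PB, nrm_mul, Nat.le_div_iff_mul_le (nrm_pos' (pow_ne_zero 2 (pq_ne hρ))),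
    mul_comm (nrm m)]
  exact and_congr_right fun _ => ⟨fun h => prm_cancel (prm_sq hρ) h, fun h => prm_mul (prm_sq hρ) h⟩

lemma fr_mul {P : Finset Ei} (hP : ∀ π ∈ P, Pq π) {ρ : Ei} (hρ : Pq ρ) (hn : ρ ∉ P) {m : Ei} :
    fr P (ρ ^ 2 * m) ↔ fr P m := by
  unfold fr
  refine forall₂_congr fun π hπ => not_congr ?_
  have hne : π ≠ ρ := fun h => hn (h ▸ hπ)
  have hc : IsCoprime (π ^ 2) (ρ ^ 2) := (pq_cop (hP π hπ) hρ hne).pow
  exact ⟨fun h => hc.dvd_of_dvd_mul_left h, fun h => h.mul_left _⟩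

/-- the multiples of a square -/
lemma sum_mult {P : Finset Ei} (hP : ∀ π ∈ P, Pq π) {ρ : Ei} (hρ : Pq ρ) (hn : ρ ∉ P)
    {M : Type*} [AddCommMonoid M] (f : Ei → M) (v : ℕ) :
    ∑ d ∈ ((PB v).filter (fr P)).filter (fun d => ρ ^ 2 ∣ d), f d =
      ∑ m ∈ (PB (v / nrm (ρ ^ 2))).filter (fr P), f (ρ ^ 2 * m) := by
  symm
  refine sum_bij (fun m _ => ρ ^ 2 * m) ?_ ?_ ?_ ?_
  · intro m hm
    rw [mem_filter] at hm
    rw [mem_filter, mem_filter]
    exact ⟨⟨(mul_mem hρ).2 hm.1, (fr_mul hP hρ hn).2 hm.2⟩, dvd_mul_right _ _⟩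
  · intro a _ b _ h
    exact mul_left_cancel₀ (pow_ne_zero 2 (pq_ne hρ)) h
  · intro d hd
    rw [mem_filter, mem_filter] at hd
    obtain ⟨⟨h1, h2⟩, m, rfl⟩ := hd
    exact ⟨m, by
      rw [mem_filter]
      exact ⟨(mul_mem hρ).1 h1, (fr_mul hP hρ hn).1 h2⟩, rfl⟩
  · intro a _
    rfl

/-- the sieve by finitely many squares -/
theorem sieve {χ : Ei → ℂ} (hmul : ∀ a b, χ (a * b) = χ a * χ b) (hχ : ∀ a, ‖χ a‖ ≤ 1) {C : ℝ}
    (hC : 0 ≤ C) (h : ∀ v : ℕ, ‖∑ d ∈ PB v, χ d‖ ≤ C * Real.sqrt v) (P : Finset Ei)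
    (hP : ∀ π ∈ P, Pq π) :
    ∀ v : ℕ, ‖∑ d ∈ (PB v).filter (fr P), χ d‖ ≤ 2 ^ P.card * C * Real.sqrt v := by
  induction P using Finset.induction_on with
  | empty =>
    intro v
    have e : (PB v).filter (fr ∅) = PB v := by
      rw [filter_eq_self]
      intro d _ π hπ
      exact absurd hπ (notMem_empty _)
    rw [e, card_empty, pow_zero, one_mul]
    exact h v
  | insert ρ P hρP ih =>
    intro v
    have hP' : ∀ π ∈ P, Pq π := fun π hπ => hP π (mem_insert_of_mem hπ)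
    have hρ : Pq ρ := hP ρ (mem_insert_self _ _)
    have ih' := ih hP'
    have e1 : (PB v).filter (fr (insert ρ P)) =
        ((PB v).filter (fr P)).filter (fun d => ¬ ρ ^ 2 ∣ d) := by
      rw [filter_filter]
      refine filter_congr fun d _ => ?_
      unfold fr
      simp only [mem_insert, forall_eq_or_imp]
      exact and_comm
    have e2 := sum_filter_add_sum_filter_not ((PB v).filter (fr P)) (fun d => ρ ^ 2 ∣ d) χ
    rw [sum_mult hP' hρ hρP] at e2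
    have e3 : ∑ m ∈ (PB (v / nrm (ρ ^ 2))).filter (fr P), χ (ρ ^ 2 * m) =
        χ (ρ ^ 2) * ∑ m ∈ (PB (v / nrm (ρ ^ 2))).filter (fr P), χ m := by
      rw [mul_sum]
      exact sum_congr rfl fun m _ => hmul _ _
    rw [e3] at e2
    rw [e1]
    have e4 : ∑ d ∈ ((PB v).filter (fr P)).filter (fun d => ¬ ρ ^ 2 ∣ d), χ d =
        ∑ d ∈ (PB v).filter (fr P), χ d -
          χ (ρ ^ 2) * ∑ m ∈ (PB (v / nrm (ρ ^ 2))).filter (fr P), χ m := by
      rw [← e2]; ring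
    rw [e4, card_insert_of_notMem hρP]
    refine (norm_sub_le _ _).trans ?_
    rw [norm_mul]
    have h1 := ih' v
    have h2 := ih' (v / nrm (ρ ^ 2))
    have h3 : Real.sqrt ((v / nrm (ρ ^ 2) : ℕ) : ℝ) ≤ Real.sqrt v :=
      Real.sqrt_le_sqrt (by exact_mod_cast Nat.div_le_self _ _)
    have h4 : ‖χ (ρ ^ 2)‖ * ‖∑ m ∈ (PB (v / nrm (ρ ^ 2))).filter (fr P), χ m‖ ≤
        1 * (2 ^ P.card * C * Real.sqrt v) :=
      mul_le_mul (hχ _) (h2.trans (mul_le_mul_of_nonneg_left h3 (by positivity)))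
        (norm_nonneg _) (by norm_num)
    have h5 : (2 : ℝ) ^ (P.card + 1) * C * Real.sqrt v = 2 ^ P.card * C * Real.sqrt v +
        2 ^ P.card * C * Real.sqrt v := by ring
    linarith

lemma exists_sq {n : Ei} (hn : prm n) (h : ¬ Squarefree n) : ∃ π, Pq π ∧ π ^ 2 ∣ n := by
  unfold Squarefree at h
  push Not at h
  obtain ⟨x, hx, hu⟩ := h
  have hx0 : x ≠ 0 := by
    rintro rfl
    rw [zero_mul, zero_dvd_iff] at hx
    exact prm_ne_zero hn hx
  obtain ⟨ρ, hρ, hρx⟩ := WfDvdMonoid.exists_irreducible_factor hu hx0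
  have hρ' : Prime ρ := irreducible_iff_prime.1 hρ
  obtain ⟨π, hπ, hass⟩ := exists_PP hρ' (not_dvd_three hρ' (hρx.trans ((dvd_mul_right _ _).trans hx)) hn)
  refine ⟨π, hπ, ?_⟩
  rw [sq]
  exact (mul_dvd_mul (hass.dvd.trans hρx) (hass.dvd.trans hρx)).trans hx

/-- the multiples of a large square are few -/
theorem few (v z : ℕ) (hz : 1 ≤ z) :
    ((((PB v).filter (fr (QB z))).filter (fun n => ¬ PS n)).card : ℝ) ≤ 32 * v / z := by
  have hsub : ((PB v).filter (fr (QB z))).filter (fun n => ¬ PS n) ⊆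
      ((QB v).filter (fun π => z < nrm π)).biUnion
        (fun π => (PB v).filter (fun n => π ^ 2 ∣ n)) := by
    intro n hn
    rw [mem_filter, mem_filter] at hn
    obtain ⟨⟨h1, h2⟩, h3⟩ := hn
    have hp := (mem_PB.1 h1).2
    obtain ⟨π, hπ, hd⟩ := exists_sq hp (fun h => h3 ⟨hp, h⟩)
    rw [mem_biUnion]
    refine ⟨π, ?_, ?_⟩
    · rw [mem_filter, mem_QB]
      refine ⟨⟨(norm_le_of_dvd (prm_ne_zero hp) ((dvd_pow_self π two_ne_zero).trans hd)).trans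
        (mem_PB.1 h1).1, hπ⟩, ?_⟩
      by_contra hcon
      exact h2 π (mem_QB.2 ⟨not_lt.1 hcon, hπ⟩) hd
    · rw [mem_filter]
      exact ⟨h1, hd⟩
  have h1 : ((((PB v).filter (fr (QB z))).filter (fun n => ¬ PS n)).card : ℝ) ≤
      ∑ π ∈ (QB v).filter (fun π => z < nrm π),
        (((PB v).filter (fun n => π ^ 2 ∣ n)).card : ℝ) := by
    exact_mod_cast (card_le_card hsub).trans card_biUnion_le
  refine h1.trans ?_
  have h2 : ∀ π ∈ (QB v).filter (fun π => z < nrm π),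
      (((PB v).filter (fun n => π ^ 2 ∣ n)).card : ℝ) ≤ 16 * v * (1 / (nrm π : ℝ) ^ 2) := by
    intro π hπ
    rw [mem_filter, mem_QB] at hπ
    have hq := hπ.1.2
    have e1 : ((PB v).filter (fun n => π ^ 2 ∣ n)).card = (PB (v / nrm (π ^ 2))).card := by
      have h3 := sum_mult (P := ∅) (fun π hπ => absurd hπ (notMem_empty _)) hq (notMem_empty _)
        (fun _ => (1 : ℕ)) v
      have e : ∀ u, (PB u).filter (fr ∅) = PB u := fun u => by
        rw [filter_eq_self]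
        intro d _ π hπ
        exact absurd hπ (notMem_empty _)
      rw [e, e] at h3
      simpa using h3
    rw [e1]
    rcases Nat.eq_zero_or_pos (v / nrm (π ^ 2)) with h0 | h0
    · rw [h0, PB_zero, card_empty, Nat.cast_zero]
      positivity
    · refine (card_PB_le h0).trans ?_
      have h4 : ((v / nrm (π ^ 2) : ℕ) : ℝ) ≤ (v : ℝ) / (nrm (π ^ 2) : ℝ) := Nat.cast_div_le
      have h5 : (nrm (π ^ 2) : ℝ) = (nrm π : ℝ) ^ 2 := by
        rw [sq, nrm_mul]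
        push_cast
        ring
      rw [h5] at h4
      calc (16 : ℝ) * ((v / nrm (π ^ 2) : ℕ) : ℝ) ≤ 16 * ((v : ℝ) / (nrm π : ℝ) ^ 2) := by
            exact mul_le_mul_of_nonneg_left h4 (by norm_num)
        _ = 16 * v * (1 / (nrm π : ℝ) ^ 2) := by ring
  refine (sum_le_sum h2).trans ?_
  rw [← mul_sum]
  have h3 := Pool.Agent.H462.CTU.Law.Cnt.sum_sq (X := v) hz
  have h4 : (16 * v : ℝ) * ∑ π ∈ (QB v).filter (fun π => z < nrm π), 1 / (nrm π : ℝ) ^ 2 ≤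
      16 * v * (2 / z) := mul_le_mul_of_nonneg_left h3 (by positivity)
  refine h4.trans (le_of_eq ?_)
  ring

/-- the mean value of a character over the squarefree elements -/
theorem mean {χ : Ei → ℂ} (hmul : ∀ a b, χ (a * b) = χ a * χ b) (hχ : ∀ a, ‖χ a‖ ≤ 1) {C : ℝ}
    (hC : 0 ≤ C) (h : ∀ v : ℕ, ‖∑ d ∈ PB v, χ d‖ ≤ C * Real.sqrt v) (ε : ℝ) (hε : 0 < ε) :
    ∃ X₀ : ℕ, ∀ X : ℕ, X₀ ≤ X → ‖∑ n ∈ SB X, χ n‖ ≤ ε * X := by
  obtain ⟨z, hz⟩ := exists_nat_gt (64 / ε)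
  have hz0 : (0 : ℝ) < z := lt_trans (by positivity) hz
  have hz1 : 1 ≤ z := by exact_mod_cast hz0
  obtain ⟨B, hB⟩ : ∃ B : ℝ, B = 2 ^ (QB z).card * C := ⟨_, rfl⟩
  have hB0 : 0 ≤ B := by rw [hB]; positivity
  obtain ⟨X₀, hX₀⟩ := exists_nat_gt ((2 * B / ε) ^ 2)
  refine ⟨X₀, fun X hX => ?_⟩
  have h1 := sieve hmul hχ hC h (QB z) (fun π hπ => (mem_QB.1 hπ).2) X
  have h2 := few X z hz1
  have e1 : SB X = ((PB X).filter (fr (QB z))).filter PS := by
    ext n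
    rw [mem_SB, mem_filter, mem_filter, mem_PB]
    constructor
    · rintro ⟨k1, k2⟩
      refine ⟨⟨⟨k1, k2.prm⟩, fun π hπ hd => ?_⟩, k2⟩
      rw [sq] at hd
      exact (mem_QB.1 hπ).2.prime.not_isUnit (k2.sqf _ hd)
    · rintro ⟨⟨⟨k1, -⟩, -⟩, k2⟩
      exact ⟨k1, k2⟩
  have e2 := sum_filter_add_sum_filter_not ((PB X).filter (fr (QB z))) PS χ
  rw [← e1] at e2
  have e3 : ∑ n ∈ SB X, χ n = ∑ d ∈ (PB X).filter (fr (QB z)), χ d -
      ∑ d ∈ ((PB X).filter (fr (QB z))).filter (fun n => ¬ PS n), χ d := by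
    rw [← e2]; ring
  rw [e3]
  refine (norm_sub_le _ _).trans ?_
  have h3 : ‖∑ d ∈ ((PB X).filter (fr (QB z))).filter (fun n => ¬ PS n), χ d‖ ≤
      32 * X / z := by
    refine (norm_sum_le _ _).trans ?_
    refine (sum_le_sum fun d _ => hχ d).trans ?_
    rw [sum_const, nsmul_eq_mul, mul_one]
    exact h2
  have h4 : (32 : ℝ) * X / z ≤ ε / 2 * X := by
    rw [div_le_iff₀ hz0]
    have h5 : 64 < z * ε := by rwa [div_lt_iff₀ hε] at hz
    have h6 : (0 : ℝ) ≤ X := Nat.cast_nonneg _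
    nlinarith
  have h5 : B * Real.sqrt X ≤ ε / 2 * X := by
    have h6 : (2 * B / ε) ≤ Real.sqrt X := by
      refine Real.le_sqrt_of_sq_le ?_
      exact hX₀.le.trans (by exact_mod_cast hX)
    rw [div_le_iff₀ hε] at h6
    have h7 : Real.sqrt X * Real.sqrt X = X := Real.mul_self_sqrt (Nat.cast_nonneg _)
    have h8 : 0 ≤ Real.sqrt (X : ℝ) := Real.sqrt_nonneg _
    nlinarith
  rw [← hB] at h1
  linarith

lemma ez_norm (c : ZMod 3) : ‖ez c‖ = 1 := by
  have h3 : ez c ^ 3 = 1 := by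
    rcases ez_val c with h | h
    · rw [h, one_pow]
    · linear_combination (ez c - 1) * h
  exact Complex.norm_eq_one_of_pow_eq_one h3 (by norm_num)

lemma not3 {n : Ei} (h : prm n) : ¬ (3 : ℤ) ∣ nr n := by
  intro h2
  obtain ⟨x, y, e, -⟩ := Pool.Agent.Y703.CT.ex_q h
  have h3 := Pool.Agent.Y703.CT.nr_form x y
  rw [← e] at h3
  omega

lemma yab_one (c : ZMod 3) {n : Ei} (h : prm n) : yab c 1 1 n = ez (c * nq n) := by
  unfold yab xab ch9 jac
  rw [PD_one, prod_empty, map_one, mul_one, one_mul, if_neg (not3 h)]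

lemma CH.norm_le {χ : Ei → ℂ} (h : CH χ) (a : Ei) : ‖χ a‖ ≤ 1 := by
  rcases h.val a with h1 | h1 | h1
  · rw [h1, norm_zero]; norm_num
  · rw [h1, norm_one]
  · refine le_of_eq (Complex.norm_eq_one_of_pow_eq_one (n := 3) ?_ (by norm_num))
    linear_combination (χ a - 1) * h1

/-- the sums of the characters modulo nine -/
theorem mean9 {c : ZMod 3} (hc : c ≠ 0) (ε : ℝ) (hε : 0 < ε) :
    ∃ X₀ : ℕ, ∀ X : ℕ, X₀ ≤ X → ‖∑ n ∈ SB X, ez (c * nq n)‖ ≤ ε * X := by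
  have hch := yab_ch c PS_one PS_one
  have h := mean (χ := yab c 1 1) hch.mul (CH.norm_le hch) (C := 972) (by norm_num) ?_ ε hε
  · obtain ⟨X₀, h⟩ := h
    refine ⟨X₀, fun X hX => ?_⟩
    have := h X hX
    rwa [sum_congr rfl fun n hn => yab_one c (mem_SB.1 hn).2.prm] at this
  · intro v
    rcases Nat.eq_zero_or_pos v with h0 | h0
    · rw [h0, PB_zero, sum_empty, norm_zero]
      positivity
    · refine (chs_le_c hc PS_one PS_one h0).trans (le_of_eq ?_)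
      rw [nrm_one]
      push_cast
      ring

lemma ez_sum (d : ZMod 3) : ez (1 * d) + ez (2 * d) = if d = 0 then 2 else -1 := by
  by_cases h : d = 0
  · rw [h, if_pos rfl, mul_zero, mul_zero, ez_zero]
    norm_num
  · rw [if_neg h]
    have h1 : ez d ^ 2 + ez d + 1 = 0 := ez_root h
    have h2 : ez (2 * d) = ez d ^ 2 := by
      rw [two_mul, ez_add, sq]
    rw [one_mul, h2]
    linear_combination h1

/-- **equidistribution** -/
theorem equ (ε : ℝ) (hε : 0 < ε) : ∃ X₀ : ℕ, ∀ X : ℕ, X₀ ≤ X →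
    |3 * (((SB X).filter fun n => nq n = 0).card : ℝ) - ((SB X).card : ℝ)| ≤ ε * X := by
  obtain ⟨X₁, h1⟩ := mean9 (c := 1) (by decide) (ε / 2) (by positivity)
  obtain ⟨X₂, h2⟩ := mean9 (c := 2) (by decide) (ε / 2) (by positivity)
  refine ⟨max X₁ X₂, fun X hX => ?_⟩
  have h3 := h1 X ((le_max_left _ _).trans hX)
  have h4 := h2 X ((le_max_right _ _).trans hX)
  have e : ((3 * (((SB X).filter fun n => nq n = 0).card : ℝ) - ((SB X).card : ℝ) : ℝ) : ℂ) =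
      ∑ n ∈ SB X, ez (1 * nq n) + ∑ n ∈ SB X, ez (2 * nq n) := by
    rw [← sum_add_distrib, sum_congr rfl fun n _ => ez_sum (nq n), sum_ite, sum_const, sum_const,
      nsmul_eq_mul, nsmul_eq_mul]
    have h5 := card_filter_add_card_filter_not (s := SB X) (fun n => nq n = 0)
    rw [← h5]
    push_cast
    ring
  have e2 : |3 * (((SB X).filter fun n => nq n = 0).card : ℝ) - ((SB X).card : ℝ)| =
      ‖∑ n ∈ SB X, ez (1 * nq n) + ∑ n ∈ SB X, ez (2 * nq n)‖ := by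
    rw [← e, Complex.norm_real, Real.norm_eq_abs]
  rw [e2]
  refine (norm_add_le _ _).trans ?_
  linarith

end Pool.Agent.H462.CTU.Law.Equ
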