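import Pool.Agent.H462.CTU.Law.Key
import Pool.Graph.R_seed8.Y703.XL.Asy

/-!
# The final asymptotics (adapted from `Y703/XK/Asy.lean` and `Y703/XL/Asy.lean`)
-/

set_option autoImplicit false

open scoped Classical
open Finset Filter

namespace Pool.Agent.H462.CTU.Law

open Pool.Agent.Y692.QS (Ei w nr toC)
open Pool.Agent.Y715.T.RecG (Pq)
open Pool.Agent.Y699.E (nrm QB PD)
open Pool.Agent.Y703.CX (jj XX eL zz kk eL_tendsto logX_eq rpow_eL HH NN ev_eL one_le_exp
  HH_ge HH_le HH_pos kk_ge kk_le X_pos one_add_log lin_le zz_ge zz_pos)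
open Pool.Agent.Y703.CQ (Sml sml_of sml_add)
open Pool.Agent.Y703.XK (HB prs ext c9 sm la bl S_BIL S_EQ S_C9 sml_eps kk_pos sml_main kap
  kap_nonneg kap_pow cmp)
open Pool.Agent.Y703.XL (cr cr_pos cr_le)

/-- sets with many primes -/
theorem sml_many {C : ℝ} (h : CntP C) :
    Sml 0 fun X => (((SS X).filter fun S => kk X < S.card).card : ℝ) := by
  have hC := h.one
  apply sml_of (C := 2 * C) (a := 1) (by norm_num)
  filter_upwards [ev_eL 1] with X hX
  have h0 : 0 < eL X := by linarith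
  have h1 := h.many X (kk X) (X_pos h0)
  have h2 : Real.exp (2 * eL X) ≤ 2 ^ kk X := by
    have e : (2 : ℝ) ^ kk X = Real.exp (kk X * Real.log 2) := by
      rw [mul_comm, Real.exp_mul, Real.exp_log (by norm_num), Real.rpow_natCast]
    rw [e]
    apply Real.exp_le_exp.2
    have h3 := kk_ge X
    have h4 := Real.log_two_gt_d9
    nlinarith
  have hX0 : (0 : ℝ) ≤ X := Nat.cast_nonneg _
  have h5 : (((SS X).filter fun S => kk X < S.card).card : ℝ) * Real.exp (2 * eL X) ≤
      C * (X * (2 * Real.exp (eL X))) := by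
    calc _ ≤ (((SS X).filter fun S => kk X < S.card).card : ℝ) * 2 ^ kk X := by gcongr
      _ ≤ C * (X * (1 + Real.log X)) := h1
      _ ≤ _ := by
        have := one_add_log h0
        gcongr
  have h6 : (2 * C) * (X * Real.exp (-1 * eL X)) * Real.exp (2 * eL X) =
      C * (X * (2 * Real.exp (eL X))) := by
    have e : Real.exp (-1 * eL X) * Real.exp (2 * eL X) = Real.exp (eL X) := by
      rw [← Real.exp_add]; congr 1; ring
    calc _ = 2 * C * X * (Real.exp (-1 * eL X) * Real.exp (2 * eL X)) := by ring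
      _ = _ := by rw [e]; ring
  rw [← h6] at h5
  exact le_of_mul_le_mul_right h5 (Real.exp_pos _)

/-- sets near the boundary -/
theorem sml_cut {C : ℝ} (h : CntP C) :
    Sml 0 fun X => (((SS X).filter fun S => S.card ≤ kk X ∧
      X < (∏ π ∈ sm (zz X) S, nrm π) * ∏ π ∈ la (zz X) S, XX (HH X) (bl (HH X) π)).card : ℝ) := by
  have hC := h.one
  apply sml_of (C := 3 * C) (a := 1) (by norm_num)
  filter_upwards [ev_eL 1, lin_le (a := 1) (b := 11) (by norm_num) (by norm_num),
    lin_le (a := 1 / 2) (b := 4) (by norm_num) (by norm_num)] with X hX h11 h12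
  have h0 : 0 < eL X := by linarith
  have h1 := h.cut X (zz X) (HH X) (kk X) (X_pos h0) (HH_pos h0) (kk_pos hX)
  refine h1.trans ?_
  have hH := HH_ge h0
  have hHp : (0 : ℝ) < HH X := lt_of_lt_of_le (Real.exp_pos _) hH
  have hX0 : (0 : ℝ) ≤ X := Nat.cast_nonneg _
  have hkp : (0 : ℝ) < kk X := by exact_mod_cast kk_pos hX
  rw [one_mul] at h11
  have hk1 : (kk X : ℝ) ≤ Real.exp (eL X) := (kk_le hX).trans h11
  have h2 : (kk X : ℝ) / HH X ≤ Real.exp (-2 * eL X) := by
    rw [div_le_iff₀ hHp]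
    calc (kk X : ℝ) ≤ Real.exp (eL X) := hk1
      _ = Real.exp (-2 * eL X) * Real.exp (3 * eL X) := by
          rw [← Real.exp_add]; congr 1; ring
      _ ≤ _ := mul_le_mul_of_nonneg_left hH (Real.exp_pos _).le
  have h3 : C * (X * (1 + Real.log X)) * ((kk X : ℝ) / HH X) ≤ 2 * C * (X * Real.exp (-1 * eL X)) := by
    have h4 := one_add_log h0
    have h5 : (0 : ℝ) ≤ 1 + Real.log X := by
      have := Real.log_natCast_nonneg X
      linarith
    calc C * (X * (1 + Real.log X)) * ((kk X : ℝ) / HH X) ≤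
          C * (X * (2 * Real.exp (eL X))) * Real.exp (-2 * eL X) := by gcongr
      _ = 2 * C * (X * (Real.exp (eL X) * Real.exp (-2 * eL X))) := by ring
      _ = 2 * C * (X * Real.exp (-1 * eL X)) := by
          rw [← Real.exp_add]
          have : eL X + -2 * eL X = -1 * eL X := by ring
          rw [this]
  have h6 : Real.exp (-(Real.log X) / kk X) ≤ Real.exp (-1 * eL X) := by
    apply Real.exp_le_exp.2
    rw [div_le_iff₀ hkp, logX_eq h0]
    have h7 : (kk X : ℝ) ≤ 11 * eL X := kk_le hX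
    have h8 : 16 * (eL X) ^ 2 ≤ Real.exp (eL X) := by
      have h9 : Real.exp (eL X) = Real.exp (1 / 2 * eL X) * Real.exp (1 / 2 * eL X) := by
        rw [← Real.exp_add]; congr 1; ring
      rw [h9]
      have h10 : (4 * eL X) * (4 * eL X) ≤ Real.exp (1 / 2 * eL X) * Real.exp (1 / 2 * eL X) :=
        mul_le_mul h12 h12 (by linarith) (Real.exp_pos _).le
      nlinarith
    nlinarith [sq_nonneg (eL X)]
  have h13 : C * X * Real.exp (-(Real.log X) / kk X) ≤ C * (X * Real.exp (-1 * eL X)) := by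
    rw [mul_assoc]
    gcongr
  linarith

/-- sets with two primes in one block -/
theorem sml_coll {C : ℝ} (h : CntP C) : Sml 0 fun X => (((SS X).filter fun S =>
    ¬ Set.InjOn (bl (HH X)) (la (zz X) S : Set Ei)).card : ℝ) := by
  have hC := h.one
  apply sml_of (C := 4 * C) (a := 1) (by norm_num)
  filter_upwards [ev_eL 1] with X hX
  have h0 : 0 < eL X := by linarith
  have h1 := h.coll X (zz X) (HH X) (X_pos h0) (zz_pos hX) (HH_pos h0)
  refine h1.trans ?_
  have hH := HH_ge h0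
  have hHp : (0 : ℝ) < HH X := lt_of_lt_of_le (Real.exp_pos _) hH
  have hX0 : (0 : ℝ) ≤ X := Nat.cast_nonneg _
  have hzp : (0 : ℝ) < zz X := by exact_mod_cast zz_pos hX
  have h2 : C * (X * (1 + Real.log X)) / HH X ≤ 2 * C * (X * Real.exp (-1 * eL X)) := by
    rw [div_le_iff₀ hHp]
    have h4 := one_add_log h0
    have e1 : Real.exp (eL X) ≤ Real.exp (-1 * eL X) * HH X := by
      calc Real.exp (eL X) ≤ Real.exp (-1 * eL X) * Real.exp (3 * eL X) := by
            rw [← Real.exp_add]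
            apply Real.exp_le_exp.2
            linarith
        _ ≤ _ := mul_le_mul_of_nonneg_left hH (Real.exp_pos _).le
    calc C * (X * (1 + Real.log X)) ≤ C * (X * (2 * Real.exp (eL X))) := by gcongr
      _ ≤ C * (X * (2 * (Real.exp (-1 * eL X) * HH X))) := by gcongr
      _ = 2 * C * (X * Real.exp (-1 * eL X)) * HH X := by ring
  have h3 : C * X / zz X ≤ 2 * C * (X * Real.exp (-1 * eL X)) := by
    rw [div_le_iff₀ hzp]
    have h4 := zz_ge hX
    have h5 : (1 : ℝ) / 2 ≤ Real.exp (-1 * eL X) * zz X := by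
      have h6 : (1 : ℝ) ≤ Real.exp (-1 * eL X) * Real.exp ((eL X) ^ 3) := by
        rw [← Real.exp_add]
        apply one_le_exp
        have h7 : eL X ≤ (eL X) ^ 3 := by
          have h8 : (eL X) ^ 3 = eL X * (eL X * eL X) := by ring
          rw [h8]
          nlinarith
        linarith
      calc (1 : ℝ) / 2 ≤ Real.exp (-1 * eL X) * Real.exp ((eL X) ^ 3) / 2 := by linarith
        _ = Real.exp (-1 * eL X) * (Real.exp ((eL X) ^ 3) / 2) := by ring
        _ ≤ _ := mul_le_mul_of_nonneg_left h4 (Real.exp_pos _).le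
    calc C * X = 2 * C * X * (1 / 2) := by ring
      _ ≤ 2 * C * X * (Real.exp (-1 * eL X) * zz X) := by gcongr
      _ = _ := by ring
  linarith

/-- the sets outside the regular part -/
theorem out_sub (X z H k V : ℕ) :
    SS X \ ((RR X z H k V).filter fun S => Nd (sm z S) (la z S)) ⊆
      (((((SS X).filter fun S => k < S.card) ∪
      ((SS X).filter fun S => S.card ≤ k ∧
        X < (∏ π ∈ sm z S, nrm π) * ∏ π ∈ la z S, XX H (bl H π))) ∪
      ((SS X).filter fun S => ¬ Set.InjOn (bl H) (la z S : Set Ei))) ∪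
      ((SS X).filter fun S => S.card ≤ k ∧ (la z S).card ≤ (sm z S).card + V)) ∪
      ((SS X).filter fun S => S.card ≤ k ∧ ¬ Nd (sm z S) (la z S)) := by
  intro S hS
  rw [Finset.mem_sdiff, Finset.mem_filter] at hS
  obtain ⟨h1, h2⟩ := hS
  simp only [mem_union, mem_filter]
  by_contra hc
  push Not at hc
  obtain ⟨⟨⟨⟨c1, c2⟩, c3⟩, c4⟩, c5⟩ := hc
  have d1 : S.card ≤ k := c1 h1
  have d2 := c2 h1 d1
  have d3 := c3 h1
  have d4 := c4 h1 d1
  have d5 := c5 h1 d1
  apply h2
  refine ⟨?_, d5⟩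
  unfold RR
  rw [mem_filter]
  exact ⟨h1, d3, d1, d2, d4⟩

theorem t_DQ {q : ZMod 3} (hK : ∀ r : ℕ, KEG (Gr q r) (cr r) (3 ^ (r + 2))) (hC : S_CNT)
    (hB : S_BAD) (hF : S_FEW) (hLo : S_LOW) (hc9 : S_C9) : S_DQ q := by
  intro r
  obtain ⟨C, hC1, hkey⟩ := hK r
  obtain ⟨D, hD⟩ := hC
  obtain ⟨c, X₀, hc, hlow⟩ := hLo
  rw [Metric.tendsto_nhds]
  intro ε hε
  obtain ⟨K, hKd⟩ : ∃ K : ℝ, K = 3 ^ (r + 2) := ⟨_, rfl⟩
  have hKp : 0 < K := by rw [hKd]; positivity
  obtain ⟨V, hV, hV1⟩ : ∃ V : ℕ, (1 / 3 : ℝ) ^ V < ε / (2 * K) ∧ 1 ≤ V := by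
    obtain ⟨V, hV⟩ := exists_pow_lt_of_lt_one (show (0 : ℝ) < ε / (2 * K) by positivity)
      (show (1 / 3 : ℝ) < 1 by norm_num)
    refine ⟨V + 1, lt_of_le_of_lt ?_ hV, by omega⟩
    exact pow_le_pow_of_le_one (by norm_num) (by norm_num) (by omega)
  have s1 := sml_many hD
  have s2 := sml_cut hD
  have s3 := sml_coll hD
  have s4 := sml_eps (hF V)
  have s5 := sml_eps hB
  have s6 := sml_main hC1
  have s := sml_add (sml_add (sml_add (sml_add (sml_add s1 s2) s3) s4) s5) s6
  have hδ : (0 : ℝ) < c * ε / 4 := by positivity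
  filter_upwards [s (c * ε / 4) hδ, ev_eL 1, eventually_ge_atTop X₀] with X hX hl hX0
  rw [neg_zero, zero_mul, Real.exp_zero, mul_one] at hX
  have hl0 : 0 < eL X := by linarith
  have hlo := hlow X hX0
  have hXp := X_pos hl0
  have hXp' : (0 : ℝ) < X := by exact_mod_cast hXp
  have hSpos : (0 : ℝ) < ((SS X).card : ℝ) := by
    refine lt_of_lt_of_le ?_ hlo
    positivity
  have hN : (HH X : ℝ) * Real.log X < NN X := by
    unfold NN
    push_cast
    exact Nat.lt_floor_add_one _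
  have hmain := hkey X (zz X) (HH X) (kk X) V (NN X) (kap C X) hXp (HH_pos hl0) (zz_pos hl)
    (kap_nonneg hC1 X) (kap_pow hC1 hl) hN hV1
  set T := (RR X (zz X) (HH X) (kk X) V).filter fun S => Nd (sm (zz X) S) (la (zz X) S) with hT
  have hTG : (RR X (zz X) (HH X) (kk X) V).filter
      (fun S => Nd (sm (zz X) S) (la (zz X) S) ∧ Gr q r S) = T.filter (Gr q r) := by
    rw [hT, filter_filter]
  rw [hTG] at hmain
  have hTS : T ⊆ SS X := (filter_subset _ _).trans (filter_subset _ _)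
  have hRS : ((RR X (zz X) (HH X) (kk X) V).card : ℝ) ≤ ((SS X).card : ℝ) := by
    exact_mod_cast card_le_card (filter_subset _ _)
  have hcmp := cmp (Gr q r) T (SS X) hTS (cr r) (cr_pos hc9 r).le (cr_le hc9 r)
  have hout : ((SS X \ T).card : ℝ) ≤
      ((((SS X).filter fun S => kk X < S.card).card : ℝ) +
      (((SS X).filter fun S => S.card ≤ kk X ∧
        X < (∏ π ∈ sm (zz X) S, nrm π) * ∏ π ∈ la (zz X) S, XX (HH X) (bl (HH X) π)).card : ℝ) +
      (((SS X).filter fun S => ¬ Set.InjOn (bl (HH X)) (la (zz X) S : Set Ei)).card : ℝ) +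
      (((SS X).filter fun S => S.card ≤ kk X ∧
        (la (zz X) S).card ≤ (sm (zz X) S).card + V).card : ℝ)) +
      (((SS X).filter fun S => S.card ≤ kk X ∧ ¬ Nd (sm (zz X) S) (la (zz X) S)).card : ℝ) := by
    have g := card_le_card (out_sub X (zz X) (HH X) (kk X) V)
    rw [← hT] at g
    have g2 := (g.trans (card_union_le _ _)).trans (Nat.add_le_add_right ((card_union_le _ _).trans
      (Nat.add_le_add_right ((card_union_le _ _).trans
      (Nat.add_le_add_right (card_union_le _ _) _)) _)) _)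
    exact_mod_cast g2
  rw [← hKd] at hmain
  have htot : |(((SS X).filter (Gr q r)).card : ℝ) - cr r * ((SS X).card : ℝ)| ≤
      K * (1 / 3 : ℝ) ^ V * ((SS X).card : ℝ) + c * ε / 4 * X := by
    have g1 : K * (1 / 3 : ℝ) ^ V * ((RR X (zz X) (HH X) (kk X) V).card : ℝ) ≤
        K * (1 / 3 : ℝ) ^ V * ((SS X).card : ℝ) := mul_le_mul_of_nonneg_left hRS (by positivity)
    linarith
  rw [Real.dist_eq]
  have e3 : (((SS X).filter (Gr q r)).card : ℝ) / ((SS X).card : ℝ) - cr r =
      ((((SS X).filter (Gr q r)).card : ℝ) - cr r * ((SS X).card : ℝ)) /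
        ((SS X).card : ℝ) := by
    field_simp
  rw [e3, abs_div, abs_of_pos hSpos, div_lt_iff₀ hSpos]
  refine lt_of_le_of_lt htot ?_
  have g2 : c * ε / 4 * X ≤ ε / 4 * ((SS X).card : ℝ) := by
    calc c * ε / 4 * X = ε / 4 * (c * X) := by ring
      _ ≤ _ := mul_le_mul_of_nonneg_left hlo (by linarith)
  have g3 : K * (1 / 3 : ℝ) ^ V * ((SS X).card : ℝ) ≤ K * (ε / (2 * K)) * ((SS X).card : ℝ) := by
    gcongr
  have g5 : K * (ε / (2 * K)) = ε / 2 := by
    field_simp
  rw [g5] at g3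
  have g4 : 0 < ε * ((SS X).card : ℝ) := by positivity
  linarith

end Pool.Agent.H462.CTU.Law
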