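import Pool.Agent.H462.CTU.Law.Key
import Pool.Graph.R_seed8.Y170.XL.BOX

/-! The count in a box, with labels (adapted from `Y170/XL/BOX.lean`). -/

set_option autoImplicit false

open scoped Classical

namespace Pool.Agent.H462.CTU.Law

open Finset
open Pool.Agent.Y692.QS (Ei)
open Pool.Agent.Y715.T.Rec (cs)
open Pool.Agent.Y715.T.RecG (Pq)
open Pool.Agent.Y703.XK (HB prs S_EQ)
open Pool.Agent.Y703.XL (nA cr S_LA)
open Pool.Agent.Y688.XK (lb cs_symm ez0 ez0_coe ext_sum HB_sub)
open Pool.Agent.Y170.XL (em em_bij sum_em)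
open Pool.Agent.H462.CTU.Chr (nq)

/-- the good labels -/
def LN {ι : Type} (S₀ : Finset Ei) (t : ι → ZMod 3) (β : ι → S₀ → ZMod 3) : Prop :=
  ∀ (c : ZMod 3) (w : S₀ → ZMod 3), (c ≠ 0 ∨ ∃ u, w u ≠ 0) → ∃ i, c * t i + ∑ u, w u * β i u ≠ 0

/-- the matrix of the small nodes -/
def AA (k : ZMod 3) (S₀ : Finset Ei) (a : S₀ → S₀ → ZMod 3) : Option S₀ → Option S₀ → ZMod 3
  | none, none => 0
  | none, some v => k * nq (v : Ei)
  | some u, none => k * nq (u : Ei)
  | some u, some v => a u v

/-- the labels -/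
def BB {ι : Type} (k : ZMod 3) (S₀ : Finset Ei) (t : ι → ZMod 3) (b : S₀ → ι → ZMod 3) :
    Option S₀ → ι → ZMod 3
  | none, l => k * t l
  | some u, l => b u l

section one
variable {ι : Type} [Fintype ι] [LinearOrder ι] {S₀ : Finset Ei} {p : ι → Ei}

omit [LinearOrder ι] in
theorem nd_iff {t : ι → ZMod 3} (ht : ∀ i, nq (p i) = t i) :
    Nd S₀ (univ.image p) ↔ LN S₀ t (fun i => lb S₀ (p i)) := by
  unfold Nd LN
  constructor
  · intro h c w hw
    obtain ⟨x, hx, hx2⟩ := h c (ez0 w) (by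
      rcases hw with hc | ⟨u, hu⟩
      · exact Or.inl hc
      · exact Or.inr ⟨u, u.2, by rw [ez0_coe]; exact hu⟩)
    rw [Finset.mem_image] at hx
    obtain ⟨i, -, rfl⟩ := hx
    refine ⟨i, ?_⟩
    rw [← Finset.sum_coe_sort S₀] at hx2
    intro h0
    apply hx2
    rw [← h0, ht i]
    congr 1
    refine Finset.sum_congr rfl fun u _ => ?_
    rw [ez0_coe]
    rfl
  · intro h c w hw
    obtain ⟨i, hi⟩ := h c (fun u => w u) (by
      rcases hw with hc | ⟨u, hu0, hu⟩
      · exact Or.inl hc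
      · exact Or.inr ⟨⟨u, hu0⟩, hu⟩)
    refine ⟨p i, Finset.mem_image_of_mem _ (Finset.mem_univ _), ?_⟩
    rw [← Finset.sum_coe_sort S₀, ht i]
    exact hi

/-- the points of the union -/
noncomputable def emO (S₀ : Finset Ei) (p : ι → Ei) :
    Option S₀ ⊕ ι → Option ↥(S₀ ∪ univ.image p)
  | Sum.inl none => none
  | Sum.inl (some u) => some (em S₀ p (Sum.inl u))
  | Sum.inr l => some (em S₀ p (Sum.inr l))

omit [LinearOrder ι] in
theorem emO_bij (hp : Function.Injective p) (hd : ∀ i, p i ∉ S₀) :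
    Function.Bijective (emO S₀ p) := by
  have hb := em_bij hp hd
  constructor
  · rintro ((_ | u) | l) ((_ | v) | m) h
    · rfl
    · exact absurd h (by simp [emO])
    · exact absurd h (by simp [emO])
    · exact absurd h (by simp [emO])
    · have h1 : em S₀ p (Sum.inl u) = em S₀ p (Sum.inl v) := Option.some.inj h
      have h2 := Sum.inl.inj (hb.1 h1)
      rw [h2]
    · have h1 : em S₀ p (Sum.inl u) = em S₀ p (Sum.inr m) := Option.some.inj h
      exact absurd (hb.1 h1) (by simp)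
    · exact absurd h (by simp [emO])
    · have h1 : em S₀ p (Sum.inr l) = em S₀ p (Sum.inl v) := Option.some.inj h
      exact absurd (hb.1 h1) (by simp)
    · have h1 : em S₀ p (Sum.inr l) = em S₀ p (Sum.inr m) := Option.some.inj h
      have h2 := Sum.inr.inj (hb.1 h1)
      rw [h2]
  · rintro (_ | x)
    · exact ⟨Sum.inl none, rfl⟩
    · obtain ⟨y, hy⟩ := hb.2 x
      rcases y with u | l
      · exact ⟨Sum.inl (some u), by rw [← hy]; rfl⟩
      · exact ⟨Sum.inr l, by rw [← hy]; rfl⟩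

/-- functions on the union -/
noncomputable def fe (hp : Function.Injective p) (hd : ∀ i, p i ∉ S₀) :
    (Option ↥(S₀ ∪ univ.image p) → ZMod 3) ≃ (Option S₀ → ZMod 3) × (ι → ZMod 3) :=
  ((Equiv.ofBijective _ (emO_bij hp hd)).symm.arrowCongr (Equiv.refl (ZMod 3))).trans
    (Equiv.sumArrowEquivProdArrow _ _ _)

/-- **the numbers of solutions agree** -/
theorem nW_eq (k : ZMod 3) {t : ι → ZMod 3} (ht : ∀ i, nq (p i) = t i)
    (hp : Function.Injective p) (hpr : ∀ i, Pq (p i)) (hS₀ : ∀ u ∈ S₀, Pq u)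
    (hd : ∀ i, p i ∉ S₀) :
    nW k (S₀ ∪ univ.image p) = nA (AA k S₀ fun u v : S₀ => cs u v)
      (BB k S₀ t fun (u : S₀) l => cs u (p l))
      (Pool.Agent.Y703.XK.ext fun e : prs ι => cs (p e.1.1) (p e.1.2)) := by
  unfold nW nA
  refine Nat.card_congr (Equiv.subtypeEquiv (fe hp hd) fun v => ?_)
  obtain ⟨a, ha⟩ : ∃ a : Option S₀ → ZMod 3, a = fun o => v (emO S₀ p (Sum.inl o)) := ⟨_, rfl⟩
  obtain ⟨b, hb⟩ : ∃ b : ι → ZMod 3, b = fun l => v (emO S₀ p (Sum.inr l)) := ⟨_, rfl⟩
  have hfe : fe hp hd v = (a, b) := by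
    rw [ha, hb]
    rfl
  rw [hfe]
  have hnone : v none = a none := by rw [ha]; rfl
  have hU : ∀ u, v (some (em S₀ p (Sum.inl u))) = a (some u) := fun u => by rw [ha]; rfl
  have hJ : ∀ l, v (some (em S₀ p (Sum.inr l))) = b l := fun l => by rw [hb]; rfl
  -- the equations in the coordinates
  have eU : ∀ u : S₀, (k * nq ((em S₀ p (Sum.inl u) : ↥(S₀ ∪ univ.image p)) : Ei) *
      (v none - v (some (em S₀ p (Sum.inl u)))) +
      ∑ ρ : ↥(S₀ ∪ univ.image p), cs (em S₀ p (Sum.inl u)) ρ *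
        (v (some ρ) - v (some (em S₀ p (Sum.inl u))))) =
      ∑ o, AA k S₀ (fun u v : S₀ => cs u v) (some u) o * (a o - a (some u)) +
        ∑ l, BB k S₀ t (fun (u : S₀) l => cs u (p l)) (some u) l * (b l - a (some u)) := by
    intro u
    rw [sum_em hp hd, Fintype.sum_option, hnone, hU u]
    have e1 : ∀ u', v (some (em S₀ p (Sum.inl u'))) = a (some u') := hU
    have e2 : ∀ l, v (some (em S₀ p (Sum.inr l))) = b l := hJ
    simp only [e1, e2]
    rw [← add_assoc]
    rfl
  have eJ : ∀ m : ι, (k * nq ((em S₀ p (Sum.inr m) : ↥(S₀ ∪ univ.image p)) : Ei) *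
      (v none - v (some (em S₀ p (Sum.inr m)))) +
      ∑ ρ : ↥(S₀ ∪ univ.image p), cs (em S₀ p (Sum.inr m)) ρ *
        (v (some ρ) - v (some (em S₀ p (Sum.inr m))))) =
      ∑ o, BB k S₀ t (fun (u : S₀) l => cs u (p l)) o m * (a o - b m) +
        ∑ l, Pool.Agent.Y703.XK.ext (fun e : prs ι => cs (p e.1.1) (p e.1.2)) m l *
          (b l - b m) := by
    intro m
    rw [sum_em hp hd, Fintype.sum_option, hnone, hJ m, ext_sum hpr m]
    have e1 : ∀ u', v (some (em S₀ p (Sum.inl u'))) = a (some u') := hU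
    have e2 : ∀ l, v (some (em S₀ p (Sum.inr l))) = b l := hJ
    simp only [e1, e2]
    rw [← add_assoc]
    congr 1
    congr 1
    · show k * nq (p m) * _ = k * t m * _
      rw [ht m]
    · refine Finset.sum_congr rfl fun u _ => ?_
      show cs (p m) u * _ = cs u (p m) * _
      rw [cs_symm (hpr m) (hS₀ u u.2)]
  constructor
  · intro h
    have hU' : ∀ u : S₀, ∑ o, AA k S₀ (fun u v : S₀ => cs u v) (some u) o * (a o - a (some u)) +
        ∑ l, BB k S₀ t (fun (u : S₀) l => cs u (p l)) (some u) l * (b l - a (some u)) = 0 :=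
      fun u => by rw [← eU]; exact h _
    have hJ' : ∀ m : ι, ∑ o, BB k S₀ t (fun (u : S₀) l => cs u (p l)) o m * (a o - b m) +
        ∑ l, Pool.Agent.Y703.XK.ext (fun e : prs ι => cs (p e.1.1) (p e.1.2)) m l *
          (b l - b m) = 0 := fun m => by rw [← eJ]; exact h _
    refine ⟨fun o => ?_, hJ'⟩
    cases o with
    | some u => exact hU' u
    | none =>
      -- the sum of the other equations
      have hS : ∀ x : ↥(S₀ ∪ univ.image p), Pq (x : Ei) := by
        intro x
        obtain ⟨y, rfl⟩ := (em_bij hp hd).2 x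
        rcases y with u | l
        · exact hS₀ u u.2
        · exact hpr l
      have h1 : ∑ x : ↥(S₀ ∪ univ.image p), (k * nq (x : Ei) * (v none - v (some x)) +
          ∑ ρ : ↥(S₀ ∪ univ.image p), cs x ρ * (v (some ρ) - v (some x))) = 0 :=
        Finset.sum_eq_zero fun x _ => h x
      have h2 : ∑ x : ↥(S₀ ∪ univ.image p), ∑ ρ : ↥(S₀ ∪ univ.image p),
          cs (x : Ei) ρ * (v (some ρ) - v (some x)) = 0 := by
        have h3 : ∑ x : ↥(S₀ ∪ univ.image p), ∑ ρ : ↥(S₀ ∪ univ.image p),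
            cs (x : Ei) ρ * (v (some ρ) - v (some x)) =
            -∑ x : ↥(S₀ ∪ univ.image p), ∑ ρ : ↥(S₀ ∪ univ.image p),
            cs (x : Ei) ρ * (v (some ρ) - v (some x)) := by
          conv_lhs => rw [Finset.sum_comm]
          rw [← Finset.sum_neg_distrib]
          refine Finset.sum_congr rfl fun x _ => ?_
          rw [← Finset.sum_neg_distrib]
          refine Finset.sum_congr rfl fun y _ => ?_
          rw [cs_symm (hS y) (hS x)]
          ring
        have h4 : ∀ z : ZMod 3, z = -z → z = 0 := by decide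
        exact h4 _ h3
      rw [Finset.sum_add_distrib, h2, add_zero, sum_em hp hd] at h1
      have h5 : ∑ u : S₀, k * nq ((em S₀ p (Sum.inl u) : ↥(S₀ ∪ univ.image p)) : Ei) *
          (v none - v (some (em S₀ p (Sum.inl u)))) =
          -∑ u : S₀, k * nq (u : Ei) * (a (some u) - a none) := by
        rw [← Finset.sum_neg_distrib]
        refine Finset.sum_congr rfl fun u _ => ?_
        rw [hnone, hU u]
        show k * nq (u : Ei) * _ = _
        ring
      have h6 : ∑ l : ι, k * nq ((em S₀ p (Sum.inr l) : ↥(S₀ ∪ univ.image p)) : Ei) *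
          (v none - v (some (em S₀ p (Sum.inr l)))) =
          -∑ l : ι, k * t l * (b l - a none) := by
        rw [← Finset.sum_neg_distrib]
        refine Finset.sum_congr rfl fun l _ => ?_
        rw [hnone, hJ l]
        show k * nq (p l) * _ = _
        rw [ht l]
        ring
      rw [h5, h6, ← neg_add, neg_eq_zero] at h1
      rw [Fintype.sum_option]
      show (0 : ZMod 3) * _ + _ + _ = 0
      rw [zero_mul, zero_add]
      exact h1
  · rintro ⟨h1, h2⟩ x
    obtain ⟨y, rfl⟩ := (em_bij hp hd).2 x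
    rcases y with u | l
    · rw [eU]
      exact h1 (some u)
    · rw [eJ]
      exact h2 l

end one

/-- **The count in a box.** -/
theorem t_BOX (hEQ : S_EQ) (hLA : S_LA) {k : ZMod 3} (hk : k ≠ 0) (r : ℕ) :
    BXG (Gr k r) (cr r) (3 ^ (r + 2)) := by
  intro ι _ _ C X κ S₀ t hκ hCX hHB hS₀ hC hdis ht hcard
  obtain ⟨cc, hcc⟩ : ∃ cc : ℝ, cc = 3 ^ (r + 2) * (3 ^ S₀.card / 3 ^ Fintype.card ι) := ⟨_, rfl⟩
  obtain ⟨R, hR⟩ : ∃ R : ℝ, R = 3 ^ (prs ι).card * (κ * ∏ j, (X j : ℝ)) := ⟨_, rfl⟩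
  have hcc0 : 0 ≤ cc := by rw [hcc]; positivity
  have hR0 : 0 ≤ R := by
    rw [hR]
    exact mul_nonneg (by positivity)
      (mul_nonneg hκ (Finset.prod_nonneg fun j _ => by positivity))
  -- facts on tuples
  have hinj : ∀ p ∈ Fintype.piFinset C, Function.Injective p := by
    intro p hp i j hij
    rw [Fintype.mem_piFinset] at hp
    by_contra hne
    have h1 := Finset.disjoint_left.1 (hdis i j hne) (hp i)
    rw [hij] at h1
    exact h1 (hp j)
  have hd : ∀ p ∈ Fintype.piFinset C, ∀ i, p i ∉ S₀ := by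
    intro p hp i
    rw [Fintype.mem_piFinset] at hp
    exact (hC i _ (hp i)).2
  have hpr : ∀ p ∈ Fintype.piFinset C, ∀ i, Pq (p i) := by
    intro p hp i
    rw [Fintype.mem_piFinset] at hp
    exact (hC i _ (hp i)).1
  have htp : ∀ p ∈ Fintype.piFinset C, ∀ i, nq (p i) = t i := by
    intro p hp i
    rw [Fintype.mem_piFinset] at hp
    exact ht i _ (hp i)
  -- the part with given labels
  have h1 : ∀ β : ι → S₀ → ZMod 3, LN S₀ t β →
      |(((Fintype.piFinset C).filter fun p => (fun i => lb S₀ (p i)) = β ∧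
          Gr k r (S₀ ∪ univ.image p)).card : ℝ) -
        cr r * (((Fintype.piFinset C).filter fun p => (fun i => lb S₀ (p i)) = β).card : ℝ)| ≤
      cc * (((Fintype.piFinset C).filter fun p => (fun i => lb S₀ (p i)) = β).card : ℝ) + R := by
    intro β hβ
    obtain ⟨C', hC'⟩ : ∃ C' : ι → Finset Ei, C' = fun i => (C i).filter fun q => lb S₀ q = β i :=
      ⟨_, rfl⟩
    have hpi : (Fintype.piFinset C).filter (fun p => (fun i => lb S₀ (p i)) = β) =
        Fintype.piFinset C' := by
      ext p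
      simp only [Finset.mem_filter, Fintype.mem_piFinset, hC']
      constructor
      · rintro ⟨h2, h3⟩ i
        exact ⟨h2 i, congrFun h3 i⟩
      · intro h2
        exact ⟨fun i => (h2 i).1, funext fun i => (h2 i).2⟩
    have h2 := hLA r (Option S₀) ι (AA k S₀ fun u v => cs u v) (BB k S₀ t fun u l => β l u)
      (by rw [Fintype.card_option, Fintype.card_coe]; exact hcard)
      (fun u v => by
        cases u with
        | none => cases v <;> rfl
        | some u =>
          cases v with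
          | none => rfl
          | some v => exact cs_symm (hS₀ u u.2) (hS₀ v v.2))
      (fun w hw => by
        obtain ⟨i, hi⟩ := hβ (w none * k) (fun u => w (some u)) (by
          obtain ⟨o, ho⟩ := hw
          cases o with
          | none => exact Or.inl (mul_ne_zero ho hk)
          | some u => exact Or.inr ⟨u, ho⟩)
        refine ⟨i, ?_⟩
        rw [Fintype.sum_option]
        show w none * (k * t i) + ∑ u : S₀, w (some u) * β i u ≠ 0
        rwa [← mul_assoc])
    obtain ⟨Q, hQ⟩ : ∃ Q : (prs ι → ZMod 3) → Prop, Q = fun α =>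
        nA (AA k S₀ fun u v : S₀ => cs u v) (BB k S₀ t fun (u : S₀) l => β l u)
          (Pool.Agent.Y703.XK.ext α) = 3 ^ (r + 1) := ⟨_, rfl⟩
    have h3 := hEQ ι C' X κ hκ
      (fun i => (Finset.card_le_card (by rw [hC']; exact Finset.filter_subset _ _)).trans (hCX i))
      (by rw [hC']; exact HB_sub hHB fun i q => lb S₀ q = β i) Q
    have h4 : ((Fintype.piFinset C).filter fun p => (fun i => lb S₀ (p i)) = β ∧
        Gr k r (S₀ ∪ univ.image p)) = ((Fintype.piFinset C').filter fun p =>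
          Q fun e => cs (p e.1.1) (p e.1.2)) := by
      rw [← hpi, Finset.filter_filter]
      refine Finset.filter_congr fun p hp => ?_
      refine and_congr_right fun hl => ?_
      unfold Gr
      rw [nW_eq k (htp p hp) (hinj p hp) (hpr p hp) hS₀ (hd p hp)]
      subst hl
      rw [hQ]
      exact Iff.rfl
    have h5 : (((Fintype.piFinset C').card : ℕ) : ℝ) = ∏ j, ((C' j).card : ℝ) := by
      rw [Fintype.card_piFinset]
      push_cast
      rfl
    rw [h4, hpi, h5]
    have hpow : (3 : ℝ) ^ (r + 1) * (3 ^ Fintype.card (Option S₀) / 3 ^ Fintype.card ι) = cc := by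
      rw [hcc, Fintype.card_option, Fintype.card_coe, pow_succ 3 S₀.card]
      ring
    rw [hpow] at h2
    rw [← hR] at h3
    obtain ⟨n, hn⟩ : ∃ n : ℝ, n = (((Fintype.piFinset C').filter fun p =>
          Q fun e => cs (p e.1.1) (p e.1.2)).card : ℝ) := ⟨_, rfl⟩
    obtain ⟨q, hq⟩ : ∃ q : ℝ, q = ((univ.filter Q).card : ℝ) / 3 ^ (prs ι).card := ⟨_, rfl⟩
    obtain ⟨P, hP⟩ : ∃ P : ℝ, P = ∏ j, ((C' j).card : ℝ) := ⟨_, rfl⟩
    have hP0 : 0 ≤ P := by
      rw [hP]
      exact Finset.prod_nonneg fun j _ => by positivity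
    have h2' : |q - cr r| ≤ cc := by
      have e : (univ.filter Q) = (univ.filter fun α : prs ι → ZMod 3 =>
          nA (AA k S₀ fun u v : S₀ => cs u v) (BB k S₀ t fun (u : S₀) l => β l u)
            (Pool.Agent.Y703.XK.ext α) = 3 ^ (r + 1)) := by
        ext α
        rw [Finset.mem_filter, Finset.mem_filter, hQ]
      rw [hq, e]
      exact h2
    rw [← hn, ← hq, ← hP] at h3
    rw [← hn, ← hP]
    have h6 : |n - cr r * P| ≤ |n - q * P| + |q - cr r| * P := by
      have h7 : n - cr r * P = (n - q * P) + (q - cr r) * P := by ring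
      have h8 : |(q - cr r) * P| = |q - cr r| * P := by rw [abs_mul, abs_of_nonneg hP0]
      rw [h7, ← h8]
      exact abs_add_le _ _
    have h7 : |q - cr r| * P ≤ cc * P := mul_le_mul_of_nonneg_right h2' hP0
    linarith
  -- sum over the labels
  obtain ⟨LL, hLL⟩ : ∃ LL : Finset (ι → S₀ → ZMod 3), LL = univ.filter (fun β => LN S₀ t β) :=
    ⟨_, rfl⟩
  have hfib : ∀ T : (ι → Ei) → Prop,
      (((Fintype.piFinset C).filter fun p => Nd S₀ (univ.image p) ∧ T p).card : ℝ) =
      ∑ β ∈ LL, (((Fintype.piFinset C).filter fun p =>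
        (fun i => lb S₀ (p i)) = β ∧ T p).card : ℝ) := by
    intro T
    rw [Finset.card_eq_sum_card_fiberwise (f := fun (p : ι → Ei) (i : ι) => lb S₀ (p i))
      (t := LL) (by
        intro p hp
        rw [Finset.mem_coe, Finset.mem_filter] at hp
        rw [Finset.mem_coe, hLL, Finset.mem_filter]
        exact ⟨Finset.mem_univ _, (nd_iff (htp p hp.1)).1 hp.2.1⟩)]
    push_cast
    refine Finset.sum_congr rfl fun β hβ => ?_
    rw [hLL, Finset.mem_filter] at hβ
    congr 2
    ext p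
    simp only [Finset.mem_filter]
    constructor
    · rintro ⟨⟨h3, h4, h4'⟩, h5⟩
      exact ⟨h3, h5, h4'⟩
    · rintro ⟨h3, h4, h5⟩
      refine ⟨⟨h3, ?_, h5⟩, h4⟩
      rw [nd_iff (htp p h3), h4]
      exact hβ.2
  have hf1 := hfib fun p => Gr k r (S₀ ∪ univ.image p)
  have hf2 := hfib fun _ => True
  simp only [and_true] at hf2
  rw [← hcc, hf1, hf2, Finset.mul_sum, ← Finset.sum_sub_distrib]
  refine (Finset.abs_sum_le_sum_abs _ _).trans ?_
  refine (Finset.sum_le_sum fun β hβ => h1 β (by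
    rw [hLL] at hβ
    exact (Finset.mem_filter.1 hβ).2)).trans ?_
  rw [Finset.sum_add_distrib, ← Finset.mul_sum, Finset.sum_const, nsmul_eq_mul]
  have h5 : ((LL.card : ℕ) : ℝ) ≤ 3 ^ (S₀.card * Fintype.card ι) := by
    have h6 : LL.card ≤ Fintype.card (ι → S₀ → ZMod 3) :=
      Finset.card_le_univ _
    rw [Fintype.card_fun, Fintype.card_fun, ZMod.card, Fintype.card_coe, ← pow_mul] at h6
    exact_mod_cast h6
  have h6 := mul_le_mul_of_nonneg_right h5 hR0
  rw [pow_add, mul_assoc, ← hR]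
  linarith

end Pool.Agent.H462.CTU.Law
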