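import Pool.Agent.H462.CTU.Fam

/-!
# Counting the squarefree elements prime to three
-/

set_option autoImplicit false

open scoped Classical
open Finset Filter

namespace Pool.Agent.H462.CTU.Law.Cou

open Pool.Agent.Y692.QS (Ei w nr nr_mul nr_nonneg ns ns_one ns_fix ns_mul ns_unit isUnit_iff ep
  ep_cases ns_star)
open Pool.Agent.Y715.T.RecG (Pq)
open Pool.Agent.Y699.E
open Pool.Agent.Y703.CT (ClsE ppr)
open Pool.Agent.Y703.XL (nS cr)
open Pool.Agent.H462.CTU.Chr (nq)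
open Pool.Agent.H462.CTU.Law
open Pool.Agent.H462.CTU.Fam
open Pool.Agent.H462.CTU.Law.Equ (not3 equ)

/-- the units -/
def un (p : Bool × ZMod 3) : Ei := (if p.1 then -1 else 1) * w ^ p.2.val

lemma un_nr (p : Bool × ZMod 3) : nr (un p) = 1 := by
  revert p
  decide

lemma un_inj : Function.Injective un := by
  intro p q
  revert p q
  decide

lemma un_isUnit (p : Bool × ZMod 3) : IsUnit (un p) := isUnit_iff.2 (un_nr p)

lemma un_ne (p : Bool × ZMod 3) : un p ≠ 0 := (un_isUnit p).ne_zero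

/-- every unit -/
lemma exists_un {u : Ei} (hu : nr u = 1) : ∃ p, u = un p := by
  obtain ⟨a, b⟩ := u
  have h : a ^ 2 - a * b + b ^ 2 = 1 := hu
  have h1 : 3 * b ^ 2 ≤ 4 := by nlinarith [sq_nonneg (2 * a - b)]
  have h2 : 3 * a ^ 2 ≤ 4 := by nlinarith [sq_nonneg (2 * b - a)]
  have h3 : -1 ≤ a ∧ a ≤ 1 := by constructor <;> nlinarith
  have h4 : -1 ≤ b ∧ b ≤ 1 := by constructor <;> nlinarith
  have h5 : ∀ a ∈ Finset.Icc (-1 : ℤ) 1, ∀ b ∈ Finset.Icc (-1 : ℤ) 1,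
      a ^ 2 - a * b + b ^ 2 = 1 → ∃ p : Bool × ZMod 3, (⟨a, b⟩ : Ei) = un p := by
    decide
  exact h5 a (Finset.mem_Icc.2 h3) b (Finset.mem_Icc.2 h4) h

lemma ns_un (p : Bool × ZMod 3) {n : Ei} (hn : prm n) : ns (un p * n) = n := by
  rw [ns_mul, ns_unit (un_isUnit p), one_mul, ns_fix hn]

lemma el_inj {p q : Bool × ZMod 3} {n m : Ei} (hn : prm n) (hm : prm m)
    (h : un p * n = un q * m) : p = q ∧ n = m := by
  have h1 : n = m := by rw [← ns_un p hn, ← ns_un q hm, h]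
  subst h1
  exact ⟨un_inj (mul_right_cancel₀ (prm_ne_zero hn) h), rfl⟩

/-- squarefree and prime to three -/
def A0 (D : Ei) : Prop := Squarefree D ∧ ¬ (3 : ℤ) ∣ nr D

lemma sqf_un (p : Bool × ZMod 3) {n : Ei} : Squarefree (un p * n) ↔ Squarefree n := by
  have h : Associated (un p * n) n := (associated_isUnit_mul_left_iff (un_isUnit p)).2 (Associated.refl n)
  exact ⟨fun h1 => h1.squarefree_of_dvd h.symm.dvd, fun h1 => h1.squarefree_of_dvd h.dvd⟩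

lemma nrm_un (p : Bool × ZMod 3) (n : Ei) : nrm (un p * n) = nrm n := by
  rw [nrm_mul]
  have : nrm (un p) = 1 := by
    unfold nrm
    rw [un_nr]
    rfl
  rw [this, one_mul]

lemma A0_el (p : Bool × ZMod 3) {n : Ei} (hn : PS n) : A0 (un p * n) := by
  refine ⟨(sqf_un p).2 hn.sqf, ?_⟩
  rw [nr_mul, un_nr, one_mul]
  exact not3 hn.prm

lemma exists_el {D : Ei} (hD : A0 D) : ∃ (p : Bool × ZMod 3) (n : Ei), PS n ∧ D = un p * n := by
  obtain ⟨h1, h2⟩ := hD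
  have h4 := (ep_cases D h2).2
  have h5 : nr (ep D) = 1 := by
    have := congrArg nr h4
    rw [nr_mul, Pool.Agent.Y692.QS.nr_star, Pool.Agent.Y692.QS.nr_one] at this
    have h6 := nr_nonneg (ep D)
    nlinarith
  obtain ⟨p, hp⟩ := exists_un h5
  have h7 : D = un p * ns D := by
    rw [← hp]
    unfold ns
    rw [← mul_assoc, mul_comm (ep D), h4, one_mul]
  refine ⟨p, ns D, ⟨ns_one h2, ?_⟩, h7⟩
  rw [h7] at h1
  exact (sqf_un p).1 h1

/-- the number of the elements with a property -/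
noncomputable def ct (s : Finset Ei) (Q : Ei → Prop) : ℕ := (s.filter Q).card

lemma ct_congr {s : Finset Ei} {Q Q' : Ei → Prop} (h : ∀ n ∈ s, Q n ↔ Q' n) :
    ct s Q = ct s Q' := by
  unfold ct
  rw [filter_congr h]

lemma ct_all {s : Finset Ei} {Q : Ei → Prop} (h : ∀ n ∈ s, Q n) : ct s Q = s.card := by
  unfold ct
  rw [filter_true_of_mem h]

lemma ct_true (s : Finset Ei) : ct s (fun _ => True) = s.card := ct_all fun _ _ => trivial

lemma ct_sub {s t : Finset Ei} {Q Q' : Ei → Prop} (h : ∀ n, n ∈ s ∧ Q n ↔ n ∈ t ∧ Q' n) :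
    ct s Q = ct t Q' := by
  unfold ct
  congr 1
  ext n
  rw [mem_filter, mem_filter]
  exact h n

lemma ct_none {s : Finset Ei} {Q : Ei → Prop} (h : ∀ n ∈ s, ¬ Q n) : ct s Q = 0 := by
  unfold ct
  rw [card_eq_zero, filter_eq_empty_iff]
  exact fun {n} hn => h n hn

lemma ct_le {s : Finset Ei} {Q Q' : Ei → Prop} (h : ∀ n ∈ s, Q n → Q' n) :
    ct s Q ≤ ct s Q' := by
  unfold ct
  refine card_le_card fun n hn => ?_
  rw [mem_filter] at hn ⊢
  exact ⟨hn.1, h n hn.1 hn.2⟩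

/-- counting -/
theorem cnt (P : Ei → Prop) (X : ℕ) : {D : Ei | nr D ≤ X ∧ A0 D ∧ P D}.ncard =
    ∑ p : Bool × ZMod 3, ct (SB X) (fun n => P (un p * n)) := by
  unfold ct
  have h1 : {D : Ei | nr D ≤ X ∧ A0 D ∧ P D} =
      (fun q : (Bool × ZMod 3) × Ei => un q.1 * q.2) ''
        ((((univ : Finset (Bool × ZMod 3)) ×ˢ SB X).filter fun q => P (un q.1 * q.2) :
          Finset ((Bool × ZMod 3) × Ei)) : Set ((Bool × ZMod 3) × Ei)) := by
    ext D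
    constructor
    · rintro ⟨h1, h2, h3⟩
      obtain ⟨p, n, hn, rfl⟩ := exists_el h2
      refine ⟨(p, n), ?_, rfl⟩
      rw [Finset.mem_coe, mem_filter, mem_product]
      refine ⟨⟨mem_univ _, mem_SB.2 ⟨?_, hn⟩⟩, h3⟩
      rw [nr_le, nrm_un] at h1
      exact h1
    · rintro ⟨⟨p, n⟩, hq, rfl⟩
      rw [Finset.mem_coe, mem_filter, mem_product] at hq
      obtain ⟨⟨-, h1⟩, h2⟩ := hq
      obtain ⟨h3, h4⟩ := mem_SB.1 h1
      refine ⟨?_, A0_el p h4, h2⟩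
      rw [nr_le, nrm_un]
      exact h3
  rw [h1, Set.ncard_image_of_injOn, Set.ncard_coe_finset]
  · rw [card_filter, sum_product]
    refine sum_congr rfl fun p _ => ?_
    rw [card_filter]
  · rintro ⟨p, n⟩ hq ⟨p', n'⟩ hq' h
    rw [Finset.mem_coe, mem_filter, mem_product] at hq hq'
    obtain ⟨h3, h4⟩ := el_inj (mem_SB.1 hq.1.2).2.prm (mem_SB.1 hq'.1.2).2.prm h
    exact Prod.ext h3 h4

/-- the class -/
def ClsA (D : Ei) : Prop := A0 D ∧ ¬ IsUnit D ∧ ¬ ((3 : Ei) ∣ D ^ 2 - 1 ∧ (9 : ℤ) ∣ nr D - 1)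

/-- the corank -/
def CorE (D : Ei) (r : ℕ) : Prop :=
  ∃ (p : Bool × ZMod 3) (n : Ei), PS n ∧ D = un p * n ∧ Cr p.2 r (PD n)

lemma CorE_el {p : Bool × ZMod 3} {n : Ei} (hn : PS n) {r : ℕ} :
    CorE (un p * n) r ↔ Cr p.2 r (PD n) := by
  constructor
  · rintro ⟨q, m, hm, h1, h2⟩
    obtain ⟨rfl, rfl⟩ := el_inj hn.prm hm.prm h1
    exact h2
  · intro h
    exact ⟨p, n, hn, rfl, h⟩

lemma unit_el {p : Bool × ZMod 3} {n : Ei} (hn : PS n) : IsUnit (un p * n) ↔ n = 1 := by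
  constructor
  · intro h
    exact eq_one_of_prm hn.prm (isUnit_of_mul_isUnit_right h)
  · rintro rfl
    rw [mul_one]
    exact un_isUnit p

lemma sq_el {p : Bool × ZMod 3} {n : Ei} (hn : PS n) :
    (3 : Ei) ∣ (un p * n) ^ 2 - 1 ↔ p.2 = 0 := by
  obtain ⟨c, hc⟩ := hn.prm
  have hn2 : (3 : Ei) ∣ n ^ 2 - 1 := ⟨c * (n + 1), by linear_combination (n + 1) * hc⟩
  have h1 : (un p * n) ^ 2 - 1 = (un p) ^ 2 * (n ^ 2 - 1) + ((un p) ^ 2 - 1) := by ring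
  rw [h1, dvd_add_right (hn2.mul_left _)]
  obtain ⟨b, k⟩ := p
  have h2 : ∀ (b : Bool) (k : ZMod 3), (un (b, k)) ^ 2 - 1 = if k = 0 then 0 else
      if k = 1 then ⟨-2, -1⟩ else ⟨-1, 1⟩ := by decide
  rw [h2]
  have h3 : (3 : Ei) = ((3 : ℤ) : Ei) := by norm_num
  rw [h3]
  by_cases h0 : k = 0
  · simp [h0]
  · rw [if_neg h0]
    constructor
    · intro h
      exfalso
      split_ifs at h
      · rw [Pool.Agent.Y692.QS.int_dvd] at h
        obtain ⟨h4, -⟩ := h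
        change (3 : ℤ) ∣ -2 at h4
        omega
      · rw [Pool.Agent.Y692.QS.int_dvd] at h
        obtain ⟨h4, -⟩ := h
        change (3 : ℤ) ∣ -1 at h4
        omega
    · intro h
      exact absurd h h0

lemma nine_el {p : Bool × ZMod 3} {n : Ei} (hn : PS n) :
    (9 : ℤ) ∣ nr (un p * n) - 1 ↔ nq n = 0 := by
  rw [nr_mul, un_nr, one_mul, ← not_iff_not]
  exact (tht_iff hn.prm).symm

lemma ClsA_el {p : Bool × ZMod 3} {n : Ei} (hn : PS n) :
    ClsA (un p * n) ↔ n ≠ 1 ∧ ¬ (p.2 = 0 ∧ nq n = 0) := by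
  unfold ClsA
  rw [unit_el hn, sq_el hn, nine_el hn]
  exact ⟨fun h => h.2, fun h => ⟨A0_el p hn, h⟩⟩

lemma nq_one : nq 1 = 0 := by decide

/-- the sets and the elements -/
lemma card_sets (X : ℕ) (Q : Finset Ei → Prop) :
    ct (SB X) (fun n => Q (PD n)) = ((SS X).filter Q).card := by
  unfold ct
  rw [← card_el X Q 1 (by decide), ← Set.ncard_coe_finset]
  congr 1
  ext n
  rw [mem_coe, mem_filter, mem_SB]
  constructor
  · rintro ⟨⟨h1, h2⟩, h3⟩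
    exact ⟨n, h2, h1, h3, (one_mul n).symm⟩
  · rintro ⟨m, h1, h2, h3, rfl⟩
    rw [one_mul]
    exact ⟨⟨h2, h1⟩, h3⟩

lemma card_SB (X : ℕ) : (SB X).card = (SS X).card := by
  have h : ∀ Q : Finset Ei → Prop, (∀ S, Q S) → (SB X).card = (SS X).card := by
    intro Q hQ
    have h := card_sets X Q
    rwa [ct_all fun _ _ => hQ _, filter_true_of_mem fun _ _ => hQ _] at h
  exact h (fun _ => True) fun _ => trivial

theorem sb_low : ∃ (c : ℝ) (X₀ : ℕ), 0 < c ∧ ∀ X : ℕ, X₀ ≤ X → c * X ≤ ((SB X).card : ℝ) := by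
  obtain ⟨c, X₀, h1, h2⟩ := t_LOW
  refine ⟨c, X₀, h1, fun X hX => ?_⟩
  rw [card_SB]
  exact h2 X hX

/-- a ratio with a small difference -/
lemma ratio {f : ℕ → ℝ} (L : ℝ) (h : ∀ ε : ℝ, 0 < ε → ∃ X₀ : ℕ, ∀ X : ℕ, X₀ ≤ X →
    |f X - L * ((SB X).card : ℝ)| ≤ ε * X) :
    Tendsto (fun X : ℕ => f X / ((SB X).card : ℝ)) atTop (nhds L) := by
  obtain ⟨c, X₁, hc, hlow⟩ := sb_low
  rw [Metric.tendsto_nhds]
  intro ε hε
  obtain ⟨X₂, h2⟩ := h (c * ε / 2) (by positivity)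
  filter_upwards [eventually_ge_atTop X₁, eventually_ge_atTop X₂, eventually_ge_atTop 1]
    with X hX1 hX2 hX3
  have hXp : (0 : ℝ) < X := by exact_mod_cast hX3
  have h3 := hlow X hX1
  have hN : (0 : ℝ) < ((SB X).card : ℝ) := lt_of_lt_of_le (by positivity) h3
  have h4 := h2 X hX2
  rw [Real.dist_eq]
  have e : f X / ((SB X).card : ℝ) - L = (f X - L * ((SB X).card : ℝ)) / ((SB X).card : ℝ) := by
    field_simp
  rw [e, abs_div, abs_of_pos hN, div_lt_iff₀ hN]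
  refine lt_of_le_of_lt h4 ?_
  have h5 : c * ε / 2 * X = ε / 2 * (c * X) := by ring
  have h6 : ε / 2 * (c * X) ≤ ε / 2 * ((SB X).card : ℝ) :=
    mul_le_mul_of_nonneg_left h3 (by linarith)
  have h7 : 0 < ε * ((SB X).card : ℝ) := by positivity
  linarith

/-- the class modulo nine has density two thirds -/
theorem cl_ratio : Tendsto (fun X : ℕ => ((Pool.Agent.Y699.E.Cl X).card : ℝ) / ((SB X).card : ℝ))
    atTop (nhds (2 / 3)) := by
  refine ratio (2 / 3) fun ε hε => ?_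
  obtain ⟨X₀, h⟩ := equ ε hε
  refine ⟨X₀, fun X hX => ?_⟩
  have h1 := h X hX
  have h2 := card_filter_add_card_filter_not (s := SB X) (fun n => nq n = 0)
  have h3 : ((SB X).filter fun n => ¬ nq n = 0) = Pool.Agent.Y699.E.Cl X := rfl
  rw [h3] at h2
  have h4 : (((SB X).filter fun n => nq n = 0).card : ℝ) + ((Pool.Agent.Y699.E.Cl X).card : ℝ) =
      ((SB X).card : ℝ) := by exact_mod_cast h2
  have h5 : |((Pool.Agent.Y699.E.Cl X).card : ℝ) - 2 / 3 * ((SB X).card : ℝ)| =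
      1 / 3 * |3 * (((SB X).filter fun n => nq n = 0).card : ℝ) - ((SB X).card : ℝ)| := by
    rw [← abs_of_pos (show (0 : ℝ) < 1 / 3 by norm_num), ← abs_mul, ← abs_neg]
    congr 1
    linarith
  rw [h5]
  have h6 := abs_nonneg (3 * (((SB X).filter fun n => nq n = 0).card : ℝ) - ((SB X).card : ℝ))
  have h7 : (0 : ℝ) ≤ ε * X := by positivity
  linarith

/-- the law for `k ≠ 0` -/
theorem ratio_k {k : ZMod 3} (hk : k ≠ 0) (r : ℕ) : Tendsto (fun X : ℕ =>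
    (ct (SB X) (fun n => Cr k r (PD n)) : ℝ) / ((SB X).card : ℝ)) atTop
    (nhds (cr r)) := by
  refine (t_DQ_all hk r).congr fun X => ?_
  rw [card_SB, ← card_sets X (Gr k r), ct_congr fun n _ => (Cr_ne hk).symm]

/-- the law for `k = 0` -/
theorem ratio_0 (r : ℕ) : Tendsto (fun X : ℕ =>
    (ct (Pool.Agent.Y699.E.Cl X) (fun n => Cr 0 r (PD n)) : ℝ) / ((SB X).card : ℝ)) atTop
    (nhds (2 / 3 * cr r)) := by
  have h1 := (Pool.Agent.Y703.XL.t_LAW r).mul cl_ratio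
  rw [mul_comm] at h1
  refine h1.congr' ?_
  obtain ⟨c, hc, X1, hlow⟩ := Pool.Agent.Y145.CT9.cnt9
  filter_upwards [eventually_ge_atTop X1, eventually_ge_atTop 1] with X hX1 hX3
  have h2 := hlow X hX1
  rw [cls_card] at h2
  have hXp : (0 : ℝ) < X := by exact_mod_cast hX3
  have hN : (0 : ℝ) < ((Pool.Agent.Y699.E.Cl X).card : ℝ) := lt_of_lt_of_le (by positivity) h2
  have e1 : {D : Ei | nr D ≤ X ∧ ClsE D} = ↑(Pool.Agent.Y699.E.Cl X) := by
    ext D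
    rw [mem_coe, Pool.Agent.Y703.XL.mem_cl]
    rfl
  have e2 : {D : Ei | nr D ≤ X ∧ ClsE D ∧ nS (ppr D) = 3 ^ (r + 1)} =
      ↑((Pool.Agent.Y699.E.Cl X).filter fun n => Cr 0 r (PD n)) := by
    ext D
    rw [mem_coe, mem_filter, Pool.Agent.Y703.XL.mem_cl]
    constructor
    · rintro ⟨h3, h4, h5⟩
      refine ⟨⟨h3, h4⟩, Cr_zero.2 ?_⟩
      rwa [ppr_eq h4.2.1.ne_zero] at h5
    · rintro ⟨⟨h3, h4⟩, h5⟩
      refine ⟨h3, h4, ?_⟩
      rw [ppr_eq h4.2.1.ne_zero]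
      exact Cr_zero.1 h5
  rw [e1, e2, Set.ncard_coe_finset, Set.ncard_coe_finset]
  unfold ct
  rw [div_mul_div_comm, mul_comm ((Pool.Agent.Y699.E.Cl X).card : ℝ), mul_div_mul_right _ _ hN.ne']

lemma one_mem {X : ℕ} (hX : 1 ≤ X) : (1 : Ei) ∈ SB X := by
  rw [mem_SB, nrm_one]
  exact ⟨hX, PS_one⟩

/-- the number of the elements -/
theorem cnt_A0 (X : ℕ) : {D : Ei | nr D ≤ X ∧ A0 D}.ncard = 6 * (SB X).card := by
  have h := cnt (fun _ => True) X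
  have e : {D : Ei | nr D ≤ X ∧ A0 D} = {D : Ei | nr D ≤ X ∧ A0 D ∧ True} := by
    ext D
    exact ⟨fun h => ⟨h.1, h.2, trivial⟩, fun h => ⟨h.1, h.2.1⟩⟩
  rw [e, h, ct_true, sum_const, smul_eq_mul]
  rfl

lemma sum_units (f : ZMod 3 → ℕ) : ∑ p : Bool × ZMod 3, f p.2 = 2 * (f 0 + f 1 + f 2) := by
  rw [Fintype.sum_prod_type]
  have h : ∑ k : ZMod 3, f k = f 0 + f 1 + f 2 := Fin.sum_univ_three f
  simp only [h]
  simp

/-- the elements of the class -/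
theorem cnt_cls (Q : ZMod 3 → Ei → Prop) (P : Ei → Prop)
    (hPQ : ∀ (p : Bool × ZMod 3) (n : Ei), PS n → (P (un p * n) ↔ Q p.2 n)) (X : ℕ) :
    {D : Ei | nr D ≤ X ∧ ClsA D ∧ P D}.ncard =
      2 * (ct (Pool.Agent.Y699.E.Cl X) (Q 0) +
        ct (SB X) (fun n => n ≠ 1 ∧ Q 1 n) + ct (SB X) (fun n => n ≠ 1 ∧ Q 2 n)) := by
  have h := cnt (fun D => ClsA D ∧ P D) X
  have e : {D : Ei | nr D ≤ X ∧ ClsA D ∧ P D} = {D : Ei | nr D ≤ X ∧ A0 D ∧ ClsA D ∧ P D} := by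
    ext D
    exact ⟨fun h => ⟨h.1, h.2.1.1, h.2.1, h.2.2⟩, fun h => ⟨h.1, h.2.2.1, h.2.2.2⟩⟩
  rw [e, h]
  have h1 : ∀ p : Bool × ZMod 3, ct (SB X) (fun n => ClsA (un p * n) ∧ P (un p * n)) =
      (fun k : ZMod 3 => ct (SB X) (fun n =>
        (n ≠ 1 ∧ ¬ (k = 0 ∧ nq n = 0)) ∧ Q k n)) p.2 := by
    intro p
    refine ct_congr fun n hn => ?_
    rw [ClsA_el (mem_SB.1 hn).2, hPQ p n (mem_SB.1 hn).2]
  rw [sum_congr rfl fun p _ => h1 p, sum_units (fun k : ZMod 3 => ct (SB X) (fun n =>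
        (n ≠ 1 ∧ ¬ (k = 0 ∧ nq n = 0)) ∧ Q k n))]
  have e0 : ct (SB X) (fun n => (n ≠ 1 ∧ ¬ ((0 : ZMod 3) = 0 ∧ nq n = 0)) ∧ Q 0 n) =
      ct (Pool.Agent.Y699.E.Cl X) (Q 0) := by
    refine ct_sub fun n => ?_
    unfold Pool.Agent.Y699.E.Cl
    rw [mem_filter]
    constructor
    · rintro ⟨h1, ⟨-, h2⟩, h3⟩
      exact ⟨⟨h1, fun h4 => h2 ⟨rfl, h4⟩⟩, h3⟩
    · rintro ⟨⟨h1, h2⟩, h3⟩
      refine ⟨h1, ⟨?_, fun h4 => h2 h4.2⟩, h3⟩
      rintro rfl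
      exact h2 nq_one
  have e1 : ∀ k : ZMod 3, k ≠ 0 →
      ct (SB X) (fun n => (n ≠ 1 ∧ ¬ (k = 0 ∧ nq n = 0)) ∧ Q k n) =
      ct (SB X) (fun n => n ≠ 1 ∧ Q k n) := by
    intro k hk
    refine ct_congr fun n _ => ?_
    exact ⟨fun h => ⟨h.1.1, h.2⟩, fun h => ⟨⟨h.1, fun h' => hk h'.1⟩, h.2⟩⟩
  rw [e0, e1 1 (by decide), e1 2 (by decide)]

lemma ct_insert {s : Finset Ei} {Q Q' : Ei → Prop} {a : Ei}
    (h : ∀ n ∈ s, Q n → n = a ∨ Q' n) : ct s Q ≤ ct s Q' + 1 := by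
  unfold ct
  refine (card_le_card (t := insert a (s.filter Q')) fun n hn => ?_).trans (card_insert_le _ _)
  rw [mem_filter] at hn
  rw [mem_insert, mem_filter]
  rcases h n hn.1 hn.2 with h1 | h1
  · exact Or.inl h1
  · exact Or.inr ⟨hn.1, h1⟩

/-- leaving out one element does not matter -/
lemma ratio_ne {Q : Ei → Prop} {L : ℝ} (h : Tendsto (fun X : ℕ =>
    (ct (SB X) Q : ℝ) / ((SB X).card : ℝ)) atTop (nhds L)) :
    Tendsto (fun X : ℕ =>
    (ct (SB X) (fun n => n ≠ 1 ∧ Q n) : ℝ) / ((SB X).card : ℝ)) atTop (nhds L) := by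
  have h0 : Tendsto (fun X : ℕ => (1 : ℝ) / ((SB X).card : ℝ)) atTop (nhds 0) := by
    refine ratio 0 fun ε hε => ?_
    obtain ⟨X₀, hX₀⟩ := exists_nat_gt (1 / ε)
    refine ⟨X₀, fun X hX => ?_⟩
    rw [zero_mul, sub_zero, abs_one]
    have h2 : (1 / ε : ℝ) ≤ X := hX₀.le.trans (by exact_mod_cast hX)
    rw [div_le_iff₀ hε] at h2
    linarith
  have h1 : Tendsto (fun X : ℕ => (ct (SB X) Q : ℝ) / ((SB X).card : ℝ) -
      1 / ((SB X).card : ℝ)) atTop (nhds L) := by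
    have := h.sub h0
    rwa [sub_zero] at this
  refine tendsto_of_tendsto_of_tendsto_of_le_of_le h1 h (fun X => ?_) (fun X => ?_)
  · show _ ≤ _
    rw [← sub_div]
    refine div_le_div_of_nonneg_right ?_ (Nat.cast_nonneg _)
    rw [sub_le_iff_le_add]
    have h2 : ∀ n ∈ SB X, Q n → n = 1 ∨ (n ≠ 1 ∧ Q n) := by
      intro n _ hn
      by_cases h3 : n = 1
      · exact Or.inl h3
      · exact Or.inr ⟨h3, hn⟩
    have h3 : ct (SB X) Q ≤ ct (SB X) (fun n => n ≠ 1 ∧ Q n) + 1 :=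
      ct_insert h2
    have h4 : (ct (SB X) Q : ℝ) ≤ ((ct (SB X) (fun n => n ≠ 1 ∧ Q n) + 1 : ℕ) : ℝ) :=
      Nat.cast_le.2 h3
    rwa [Nat.cast_add, Nat.cast_one] at h4
  · show _ ≤ _
    refine div_le_div_of_nonneg_right ?_ (Nat.cast_nonneg _)
    exact Nat.cast_le.2 (ct_le fun n _ hn => hn.2)

/-- the class, relative to the primary elements -/
theorem cls_ratio : Tendsto (fun X : ℕ =>
    ({D : Ei | nr D ≤ X ∧ ClsA D}.ncard : ℝ) / ((SB X).card : ℝ)) atTop (nhds (16 / 3)) := by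
  have h1 : Tendsto (fun X : ℕ => (ct (SB X) (fun _ => True) : ℝ) / ((SB X).card : ℝ))
      atTop (nhds 1) := by
    refine ratio 1 fun ε hε => ⟨0, fun X _ => ?_⟩
    rw [ct_true, one_mul, sub_self, abs_zero]
    positivity
  have h2 := ratio_ne h1
  have h3 := ((cl_ratio.add h2).add h2).const_mul 2
  have e : (2 : ℝ) * (2 / 3 + 1 + 1) = 16 / 3 := by norm_num
  rw [e] at h3
  refine h3.congr fun X => ?_
  have h4 := cnt_cls (fun _ _ => True) (fun _ => True) (fun _ _ _ => Iff.rfl) X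
  have h5 : {D : Ei | nr D ≤ X ∧ ClsA D} = {D : Ei | nr D ≤ X ∧ ClsA D ∧ True} := by
    ext D
    exact ⟨fun h => ⟨h.1, h.2, trivial⟩, fun h => ⟨h.1, h.2.1⟩⟩
  rw [h5, h4, ct_true]
  generalize ct (SB X) (fun n => n ≠ 1 ∧ True) = a
  push_cast
  ring

theorem cls_cor_ratio (r : ℕ) : Tendsto (fun X : ℕ =>
    ({D : Ei | nr D ≤ X ∧ ClsA D ∧ CorE D r}.ncard : ℝ) / ((SB X).card : ℝ)) atTop
    (nhds (16 / 3 * cr r)) := by
  have h3 := (((ratio_0 r).add (ratio_ne (ratio_k (k := 1) (by decide) r))).add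
    (ratio_ne (ratio_k (k := 2) (by decide) r))).const_mul 2
  have e : (2 : ℝ) * (2 / 3 * cr r + cr r + cr r) = 16 / 3 * cr r := by ring
  rw [e] at h3
  refine h3.congr fun X => ?_
  have h4 := cnt_cls (fun k n => Cr k r (PD n)) (fun D => CorE D r)
    (fun p n hn => CorE_el hn) X
  rw [h4]
  generalize ct (SB X) (fun n => n ≠ 1 ∧ Cr 1 r (PD n)) = a
  generalize ct (SB X) (fun n => n ≠ 1 ∧ Cr 2 r (PD n)) = b
  generalize ct (Pool.Agent.Y699.E.Cl X) (fun n => Cr 0 r (PD n)) = c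
  push_cast
  ring

/-- **the law of the coranks in the class** -/
theorem law (r : ℕ) : Tendsto (fun X : ℕ =>
    ({D : Ei | nr D ≤ X ∧ ClsA D ∧ CorE D r}.ncard : ℝ) /
      ({D : Ei | nr D ≤ X ∧ ClsA D}.ncard : ℝ)) atTop (nhds (cr r)) := by
  have h := (cls_cor_ratio r).div cls_ratio (by norm_num)
  have e : 16 / 3 * cr r / (16 / 3) = cr r := by
    field_simp
  rw [e] at h
  refine h.congr' ?_
  obtain ⟨c, X₁, hc, hlow⟩ := sb_low
  filter_upwards [eventually_ge_atTop X₁, eventually_ge_atTop 1] with X hX1 hX3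
  have hXp : (0 : ℝ) < X := by exact_mod_cast hX3
  have hN : (0 : ℝ) < ((SB X).card : ℝ) := lt_of_lt_of_le (by positivity) (hlow X hX1)
  exact div_div_div_cancel_right₀ hN.ne' _ _

/-! ### the residue classes modulo three -/

lemma dvd_el {p q : Bool × ZMod 3} {n : Ei} (hn : PS n) :
    (3 : Ei) ∣ un q * n - un p ↔ q = p := by
  have h1 : un q * n - un p = un q * (n - 1) + (un q - un p) := by ring
  have h2 : (3 : Ei) ∣ n - 1 := hn.prm
  rw [h1, dvd_add_right (h2.mul_left _)]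
  have h3 : (3 : Ei) = ((3 : ℤ) : Ei) := by norm_num
  rw [h3, Pool.Agent.Y692.QS.int_dvd]
  clear h1 h2 h3 hn
  revert p q
  decide

theorem cnt_res (Q : ZMod 3 → Ei → Prop) (P : Ei → Prop)
    (hPQ : ∀ (p : Bool × ZMod 3) (n : Ei), PS n → (P (un p * n) ↔ Q p.2 n))
    (p : Bool × ZMod 3) (X : ℕ) :
    {D : Ei | nr D ≤ X ∧ ClsA D ∧ P D ∧ (3 : Ei) ∣ D - un p}.ncard =
      if p.2 = 0 then ct (Pool.Agent.Y699.E.Cl X) (Q 0) else
        ct (SB X) (fun n => n ≠ 1 ∧ Q p.2 n) := by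
  have h := cnt (fun D => ClsA D ∧ P D ∧ (3 : Ei) ∣ D - un p) X
  have e : {D : Ei | nr D ≤ X ∧ ClsA D ∧ P D ∧ (3 : Ei) ∣ D - un p} =
      {D : Ei | nr D ≤ X ∧ A0 D ∧ ClsA D ∧ P D ∧ (3 : Ei) ∣ D - un p} := by
    ext D
    exact ⟨fun h => ⟨h.1, h.2.1.1, h.2⟩, fun h => ⟨h.1, h.2.2⟩⟩
  rw [e, h, sum_eq_single p]
  · have h1 : ct (SB X) (fun n => ClsA (un p * n) ∧ P (un p * n) ∧ (3 : Ei) ∣ un p * n - un p) =
        ct (SB X) (fun n => (n ≠ 1 ∧ ¬ (p.2 = 0 ∧ nq n = 0)) ∧ Q p.2 n) := by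
      refine ct_congr fun n hn => ?_
      rw [ClsA_el (mem_SB.1 hn).2, hPQ p n (mem_SB.1 hn).2, dvd_el (mem_SB.1 hn).2]
      exact and_congr_right fun _ => ⟨fun h => h.1, fun h => ⟨h, rfl⟩⟩
    rw [h1]
    by_cases hk : p.2 = 0
    · rw [if_pos hk, hk]
      refine ct_sub fun n => ?_
      unfold Pool.Agent.Y699.E.Cl
      rw [mem_filter]
      constructor
      · rintro ⟨h1, ⟨-, h2⟩, h3⟩
        exact ⟨⟨h1, fun h4 => h2 ⟨rfl, h4⟩⟩, h3⟩
      · rintro ⟨⟨h1, h2⟩, h3⟩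
        refine ⟨h1, ⟨?_, fun h4 => h2 h4.2⟩, h3⟩
        rintro rfl
        exact h2 nq_one
    · rw [if_neg hk]
      refine ct_congr fun n _ => ?_
      exact ⟨fun h => ⟨h.1.1, h.2⟩, fun h => ⟨⟨h.1, fun h' => hk h'.1⟩, h.2⟩⟩
  · intro q _ hqp
    refine ct_none fun n hn h1 => ?_
    exact hqp ((dvd_el (mem_SB.1 hn).2).1 h1.2.2)
  · intro h1
    exact absurd (mem_univ _) h1

lemma ratio_true : Tendsto (fun X : ℕ =>
    (ct (SB X) (fun _ => True) : ℝ) / ((SB X).card : ℝ)) atTop (nhds 1) := by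
  refine ratio 1 fun ε hε => ⟨0, fun X _ => ?_⟩
  rw [ct_true, one_mul, sub_self, abs_zero]
  positivity

/-- **the law of the coranks in a residue class** -/
theorem law_res (p : Bool × ZMod 3) (r : ℕ) : Tendsto (fun X : ℕ =>
    ({D : Ei | nr D ≤ X ∧ ClsA D ∧ CorE D r ∧ (3 : Ei) ∣ D - un p}.ncard : ℝ) /
      ({D : Ei | nr D ≤ X ∧ ClsA D ∧ (3 : Ei) ∣ D - un p}.ncard : ℝ)) atTop (nhds (cr r)) := by
  obtain ⟨c, X₁, hc, hlow⟩ := sb_low
  have hev : ∀ᶠ X : ℕ in atTop, (0 : ℝ) < ((SB X).card : ℝ) := by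
    filter_upwards [eventually_ge_atTop X₁, eventually_ge_atTop 1] with X hX1 hX3
    have hXp : (0 : ℝ) < X := by exact_mod_cast hX3
    exact lt_of_lt_of_le (by positivity) (hlow X hX1)
  have e1 : ∀ X : ℕ, {D : Ei | nr D ≤ X ∧ ClsA D ∧ (3 : Ei) ∣ D - un p} =
      {D : Ei | nr D ≤ X ∧ ClsA D ∧ True ∧ (3 : Ei) ∣ D - un p} := by
    intro X
    ext D
    exact ⟨fun h => ⟨h.1, h.2.1, trivial, h.2.2⟩, fun h => ⟨h.1, h.2.1, h.2.2.2⟩⟩
  have h4 := fun X => cnt_res (fun k n => Cr k r (PD n)) (fun D => CorE D r)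
    (fun p n hn => CorE_el hn) p X
  have h5 := fun X => cnt_res (fun _ _ => True) (fun _ => True) (fun _ _ _ => Iff.rfl) p X
  simp only [e1, h4, h5]
  by_cases hk : p.2 = 0
  · simp only [if_pos hk]
    have h := (ratio_0 r).div cl_ratio (by norm_num)
    have e : 2 / 3 * cr r / (2 / 3) = cr r := by field_simp
    rw [e] at h
    refine h.congr' ?_
    filter_upwards [hev] with X hN
    have e6 : ct (Pool.Agent.Y699.E.Cl X) (fun _ => True) = (Pool.Agent.Y699.E.Cl X).card :=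
      ct_true _
    rw [e6]
    exact div_div_div_cancel_right₀ hN.ne' _ _
  · simp only [if_neg hk]
    have h := (ratio_ne (ratio_k hk r)).div (ratio_ne ratio_true) (by norm_num)
    rw [div_one] at h
    refine h.congr' ?_
    filter_upwards [hev] with X hN
    exact div_div_div_cancel_right₀ hN.ne' _ _

/-- **the share of the class** -/
theorem share : Tendsto (fun X : ℕ =>
    ({D : Ei | nr D ≤ X ∧ ClsA D}.ncard : ℝ) / ({D : Ei | nr D ≤ X ∧ A0 D}.ncard : ℝ)) atTop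
    (nhds (8 / 9)) := by
  have h := cls_ratio.div_const 6
  have e : (16 : ℝ) / 3 / 6 = 8 / 9 := by norm_num
  rw [e] at h
  refine h.congr fun X => ?_
  rw [cnt_A0]
  push_cast
  rw [div_div, mul_comm ((SB X).card : ℝ)]

/-- the squarefree elements prime to three have positive density -/
theorem a0_low : ∃ c : ℝ, 0 < c ∧ ∃ X₀ : ℕ, ∀ X : ℕ, X₀ ≤ X →
    c * X ≤ ({D : Ei | nr D ≤ X ∧ A0 D}.ncard : ℝ) := by
  obtain ⟨c, X₀, h1, h2⟩ := sb_low
  refine ⟨c, h1, X₀, fun X hX => ?_⟩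
  rw [cnt_A0]
  push_cast
  have h3 := h2 X hX
  have h4 : (0 : ℝ) ≤ ((SB X).card : ℝ) := Nat.cast_nonneg _
  linarith

end Pool.Agent.H462.CTU.Law.Cou
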