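import Pool.Agent.H462.CTU.Law.Gen

/-! FEW and BAD (adapted from helper433's `Y433/XK/Few.lean`). -/

set_option autoImplicit false

open scoped Classical

namespace Pool.Agent.H462.CTU.Law

open Finset Filter
open Pool.Agent.Y692.QS (Ei)
open Pool.Agent.Y715.T.Rec (cs)
open Pool.Agent.Y715.T.RecG (Pq)
open Pool.Agent.Y699.E
open Pool.Agent.Y703.CX (eL zz kk)
open Pool.Agent.Y703.XK (sm la bl)
open Pool.Agent.Y433.XK (pN pN_pos)
open Pool.Agent.H462.CTU.Chr (nq)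

/-- the large parts are counted by squarefree elements -/
theorem fiber_le (X z : ℕ) (S₀ : Finset Ei) (hS₀ : ∀ u ∈ S₀, Pq u)
    (F : Finset (Finset Ei)) (hF : ∀ S ∈ F, S ∈ SS X ∧ sm z S = S₀) (g : Ei → ℝ)
    (hg : ∀ π, 0 ≤ g π) (c : ℝ) (hc : ∀ S ∈ F, c ≤ ∏ π ∈ la z S, g π) :
    (F.card : ℝ) * c ≤ ∑ n ∈ SB (X / pN S₀), mf g n := by
  have hpr : ∀ S ∈ F, (∀ π ∈ S, Pq π) ∧ ∏ π ∈ S, nrm π ≤ X := by
    intro S hS
    have h := (hF S hS).1
    unfold SS at h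
    rw [mem_filter] at h
    exact ⟨h.2.1.1, h.2.2⟩
  rw [← nsmul_eq_mul, ← sum_const]
  refine sum_le_inj (fun S => ∏ π ∈ la z S, π) ?_ ?_ ?_ ?_
  · intro S hS
    obtain ⟨h1, h2⟩ := hpr S hS
    rw [mem_SB]
    refine ⟨?_, (PS_prod fun π hπ => h1 π (filter_subset _ _ hπ)).1⟩
    rw [Nat.le_div_iff_mul_le (pN_pos hS₀), nrm_prod, mul_comm]
    have : (∏ π ∈ sm z S, nrm π) * ∏ π ∈ la z S, nrm π = ∏ π ∈ S, nrm π :=
      prod_filter_mul_prod_filter_not _ _ _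
    unfold pN
    rw [← (hF S hS).2, this]
    exact h2
  · intro S hS T hT h
    have e1 := (PS_prod (S := la z S) fun π hπ => (hpr S hS).1 π (filter_subset _ _ hπ)).2
    have e2 := (PS_prod (S := la z T) fun π hπ => (hpr T hT).1 π (filter_subset _ _ hπ)).2
    have e3 : la z S = la z T := by
      rw [← e1, ← e2]
      exact congrArg PD h
    have key : ∀ S : Finset Ei, sm z S ∪ la z S = S := fun S => filter_union_filter_not_eq _ _
    rw [← key S, ← key T, (hF S hS).2, (hF T hT).2, e3]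
  · intro S hS
    refine (hc S hS).trans (le_of_eq ?_)
    unfold mf
    rw [(PS_prod (S := la z S) fun π hπ => (hpr S hS).1 π (filter_subset _ _ hπ)).2]
  · intro n _
    exact mf_nonneg hg n

theorem few_count (V : ℕ) (X : ℕ) (S₀ : Finset Ei) (hS₀ : ∀ u ∈ S₀, Pq u ∧ nrm u ≤ zz X)
    (F : Finset (Finset Ei))
    (hF : ∀ S ∈ F, S ∈ SS X ∧ (S.card ≤ kk X ∧ (la (zz X) S).card ≤ (sm (zz X) S).card + V) ∧
      sm (zz X) S = S₀) : (F.card : ℝ) ≤
        441 * (3 / 2) ^ V * (3 / 2) ^ S₀.card * lg (pN S₀) * (((X / pN S₀ : ℕ) : ℝ) *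
          (lg (X / pN S₀)) ^ (-(1 / 3) : ℝ)) := by
  have h := fiber_le X (zz X) S₀ (fun u hu => (hS₀ u hu).1)
    F (fun S hS => ⟨(hF S hS).1, (hF S hS).2.2⟩) (fun _ => 2 / 3) (fun _ => by norm_num)
    ((2 / 3) ^ (S₀.card + V)) (fun S hS => by
        replace hS := hF S hS
        rw [prod_const]
        refine pow_le_pow_of_le_one (by norm_num) (by norm_num) ?_
        have := hS.2.1.2
        rw [hS.2.2] at this
        exact this)
  have h2 := h.trans (hall0 (X / pN S₀))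
  have hlg := one_le_lg (pN S₀)
  have h3 : (3 / 2 : ℝ) ^ (S₀.card + V) * (2 / 3) ^ (S₀.card + V) = 1 := by
    rw [← mul_pow]
    norm_num
  set c := (F.card : ℝ) with hcdef
  have hTl : 0 ≤ ((X / pN S₀ : ℕ) : ℝ) * (lg (X / pN S₀)) ^ (-(1 / 3) : ℝ) :=
    mul_nonneg (Nat.cast_nonneg _) (Real.rpow_nonneg (zero_le_one.trans (one_le_lg _)) _)
  calc c = (3 / 2 : ℝ) ^ (S₀.card + V) * (c * (2 / 3) ^ (S₀.card + V)) := by
        linear_combination (-c) * h3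
    _ ≤ (3 / 2 : ℝ) ^ (S₀.card + V) * (441 * (((X / pN S₀ : ℕ) : ℝ) *
          (lg (X / pN S₀)) ^ (-(1 / 3) : ℝ))) := mul_le_mul_of_nonneg_left h2 (by positivity)
    _ = (441 * (3 / 2) ^ V * (3 / 2) ^ S₀.card) * 1 * (((X / pN S₀ : ℕ) : ℝ) *
          (lg (X / pN S₀)) ^ (-(1 / 3) : ℝ)) := by rw [pow_add]; ring
    _ ≤ (441 * (3 / 2) ^ V * (3 / 2) ^ S₀.card) * lg (pN S₀) * (((X / pN S₀ : ℕ) : ℝ) *
          (lg (X / pN S₀)) ^ (-(1 / 3) : ℝ)) := by gcongr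

theorem t_FEW : S_FEW := by
  intro V ε hε
  obtain ⟨X₀, hX₀⟩ := gen (3 / 2) (441 * (3 / 2) ^ V) (by norm_num) (by positivity)
    (fun X S => (la (zz X) S).card ≤ (sm (zz X) S).card + V)
    (fun X S₀ hS₀ _ F hF => few_count V X S₀ hS₀ F hF) ε hε
  refine ⟨X₀, fun X hX => hX₀ X hX _ fun S hS => ?_⟩
  rw [mem_filter] at hS
  exact hS

/-- the labels are degenerate with respect to two disjoint sets and a residue -/
def Dg (c : ZMod 3) (A B : Finset Ei) (T : Finset Ei) : Prop :=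
  ∀ π ∈ T, c * nq π + (∑ u ∈ A, cs u π - ∑ u ∈ B, cs u π) = 0

theorem notNd {S₀ T : Finset Ei} (h : ¬ Nd S₀ T) : ∃ (c : ZMod 3) (A B : Finset Ei),
    A ⊆ S₀ ∧ B ⊆ S₀ ∧ Disjoint A B ∧ (A ≠ B ∨ c ≠ 0) ∧ Dg c A B T := by
  unfold Nd at h
  push Not at h
  obtain ⟨c, v, hcv, h2⟩ := h
  refine ⟨c, S₀.filter fun u => v u = 1, S₀.filter fun u => v u = 2, filter_subset _ _,
    filter_subset _ _, ?_, ?_, ?_⟩
  · rw [disjoint_left]
    intro x hx hx2
    rw [mem_filter] at hx hx2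
    rw [hx.2] at hx2
    exact absurd hx2.2 (by decide)
  · rcases hcv with hc | ⟨u, hu, hu0⟩
    · exact Or.inr hc
    left
    intro heq
    have key : ∀ c : ZMod 3, c ≠ 0 → c = 1 ∨ c = 2 := by decide
    rcases key (v u) hu0 with h1 | h1
    · have : u ∈ S₀.filter fun u => v u = 2 := by
        rw [← heq, mem_filter]
        exact ⟨hu, h1⟩
      rw [mem_filter, h1] at this
      exact absurd this.2 (by decide)
    · have : u ∈ S₀.filter fun u => v u = 1 := by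
        rw [heq, mem_filter]
        exact ⟨hu, h1⟩
      rw [mem_filter, h1] at this
      exact absurd this.2 (by decide)
  · intro π hπ
    have h3 := h2 π hπ
    rw [← h3, sum_filter, sum_filter, ← sum_sub_distrib]
    congr 1
    refine sum_congr rfl fun u _ => ?_
    have key : ∀ a b : ZMod 3, (if a = 1 then b else 0) - (if a = 2 then b else 0) = a * b := by
      decide
    exact key (v u) (cs u π)

theorem pair_count (X z : ℕ) (S₀ : Finset Ei) (hS₀ : ∀ u ∈ S₀, Pq u ∧ nrm u ≤ z)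
    (c : ZMod 3) (A B : Finset Ei) (hA : A ⊆ S₀) (hB : B ⊆ S₀) (hd : Disjoint A B)
    (hAB : A ≠ B ∨ c ≠ 0)
    (F : Finset (Finset Ei)) (hF : ∀ S ∈ F, (S ∈ SS X ∧ sm z S = S₀) ∧ Dg c A B (la z S)) :
    (F.card : ℝ) ≤ 14175 * lg (pN S₀) * (((X / pN S₀ : ℕ) : ℝ) *
          (lg (X / pN S₀)) ^ (-(1 / 3) : ℝ)) := by
  obtain ⟨a1, a2⟩ := PS_prod (S := A) fun π hπ => (hS₀ π (hA hπ)).1
  obtain ⟨b1, b2⟩ := PS_prod (S := B) fun π hπ => (hS₀ π (hB hπ)).1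
  set a := ∏ π ∈ A, π with ha
  set b := ∏ π ∈ B, π with hb
  have hab : a ≠ b ∨ c ≠ 0 := by
    rcases hAB with hAB | hc
    · left
      intro h
      apply hAB
      rw [← a2, ← b2, h]
    · exact Or.inr hc
  have hval : ∀ S ∈ F, ∀ π ∈ la z S, yab c a b π = 1 := by
    intro S hS π hπ
    obtain ⟨⟨h1, h2⟩, h3⟩ := hF S hS
    have hπq : Pq π ∧ ¬ nrm π ≤ z := by
      unfold la at hπ
      rw [mem_filter] at hπ
      unfold SS at h1
      rw [mem_filter] at h1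
      exact ⟨h1.2.1.1 π hπ.1, hπ.2⟩
    have hchi : ∀ u ∈ S₀, chi u π = ez (cs u π) := by
      intro u hu
      refine chi_of fun hdv => ?_
      have := eq_of_dvd (hS₀ u hu).1 hπq.1 hdv
      subst this
      exact hπq.2 (hS₀ u hu).2
    have h4 : ¬ (3 : ℤ) ∣ Pool.Agent.Y692.QS.nr π := by
      intro h
      obtain ⟨u1, u2, h1, -⟩ := Pool.Agent.Y703.CT.ex_q hπq.1.three
      rw [h1, Pool.Agent.Y703.CT.nr_form] at h
      omega
    unfold yab xab jac ch9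
    rw [if_neg h4, a2, b2, prod_congr rfl fun u hu => hchi u (hA hu),
      prod_congr rfl fun u hu => hchi u (hB hu),
      ← ez_sum, ← ez_sum, conj_ez, ← ez_add, ← ez_add, ← sub_eq_add_neg, add_comm, h3 π hπ,
      ez_zero]
  have h := fiber_le X z S₀ (fun u hu => (hS₀ u hu).1) F (fun S hS => (hF S hS).1)
    (fun π => (1 + 2 * (yab c a b π).re) / 3) (fun π => by
      have := re_nonneg ((yab_ch c a1 b1).val π)
      positivity) 1 (fun S hS => by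
      refine le_of_eq (prod_eq_one fun π hπ => ?_).symm
      rw [hval S hS π hπ]
      norm_num)
  rw [mul_one] at h
  refine h.trans ((hallY a1 b1 hab _).trans ?_)
  have hnn : nrm a * nrm b ≤ pN S₀ := by
    rw [ha, hb, nrm_prod, nrm_prod, ← prod_union hd]
    unfold pN
    refine prod_le_prod_of_subset_of_one_le' (union_subset hA hB) fun u hu _ => ?_
    exact nrm_pos' (pq_ne (hS₀ u hu).1)
  have h9 : lg (9 * (nrm a * nrm b)) ≤ 5 * lg (pN S₀) := by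
    have k1 : 9 * (nrm a * nrm b) ≤ 16 * pN S₀ := by
      have := Nat.mul_le_mul (show 9 ≤ 16 by norm_num) hnn
      exact this
    have k2 := lg_mono k1
    have hp : 0 < pN S₀ := pN_pos fun u hu => (hS₀ u hu).1
    have k3 : lg (16 * pN S₀) = lg (pN S₀) + 4 := by
      unfold lg
      have : Nat.log 2 (16 * pN S₀) = Nat.log 2 (pN S₀) + 4 := by
        have e : 16 * pN S₀ = pN S₀ * 2 * 2 * 2 * 2 := by ring
        rw [e, Nat.log_mul_base (by norm_num) (by positivity),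
          Nat.log_mul_base (by norm_num) (by positivity),
          Nat.log_mul_base (by norm_num) (by positivity),
          Nat.log_mul_base (by norm_num) (by positivity)]
      rw [this]
      push_cast
      ring
    have k4 := one_le_lg (pN S₀)
    linarith
  have h4 : (lg (9 * (nrm a * nrm b))) ^ (1 / 3 : ℝ) ≤ 5 * lg (pN S₀) := by
    calc (lg (9 * (nrm a * nrm b))) ^ (1 / 3 : ℝ) ≤ (lg (9 * (nrm a * nrm b))) ^ (1 : ℝ) :=
          Real.rpow_le_rpow_of_exponent_le (one_le_lg _) (by norm_num)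
      _ = lg (9 * (nrm a * nrm b)) := Real.rpow_one _
      _ ≤ 5 * lg (pN S₀) := h9
  have hTl : 0 ≤ ((X / pN S₀ : ℕ) : ℝ) * (lg (X / pN S₀)) ^ (-(1 / 3) : ℝ) :=
    mul_nonneg (Nat.cast_nonneg _) (Real.rpow_nonneg (zero_le_one.trans (one_le_lg _)) _)
  calc 2835 * (lg (9 * (nrm a * nrm b))) ^ (1 / 3 : ℝ) * (((X / pN S₀ : ℕ) : ℝ) *
          (lg (X / pN S₀)) ^ (-(1 / 3) : ℝ)) ≤
        2835 * (5 * lg (pN S₀)) * (((X / pN S₀ : ℕ) : ℝ) *
          (lg (X / pN S₀)) ^ (-(1 / 3) : ℝ)) := by gcongr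
    _ = _ := by ring

theorem bad_count (X : ℕ) (S₀ : Finset Ei) (hS₀ : ∀ u ∈ S₀, Pq u ∧ nrm u ≤ zz X)
    (G : Finset (Finset Ei))
    (hG : ∀ S ∈ G, S ∈ SS X ∧ (S.card ≤ kk X ∧ ¬ Nd (sm (zz X) S) (la (zz X) S)) ∧
      sm (zz X) S = S₀) : (G.card : ℝ) ≤
        42525 * 4 ^ S₀.card * lg (pN S₀) * (((X / pN S₀ : ℕ) : ℝ) *
          (lg (X / pN S₀)) ^ (-(1 / 3) : ℝ)) := by
  set P := ((univ : Finset (ZMod 3)) ×ˢ (S₀.powerset ×ˢ S₀.powerset)).filter fun p =>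
    Disjoint p.2.1 p.2.2 ∧ (p.2.1 ≠ p.2.2 ∨ p.1 ≠ 0) with hP
  have hsub : G ⊆ P.biUnion fun p => G.filter fun S => Dg p.1 p.2.1 p.2.2 (la (zz X) S) := by
    intro S hS
    obtain ⟨h1, ⟨h2, h3⟩, h4⟩ := hG S hS
    rw [h4] at h3
    obtain ⟨c, A, B, hA, hB, hd, hAB, hDg⟩ := notNd h3
    rw [mem_biUnion]
    refine ⟨(c, A, B), ?_, ?_⟩
    · rw [hP, mem_filter, mem_product, mem_product, mem_powerset, mem_powerset]
      exact ⟨⟨mem_univ _, hA, hB⟩, hd, hAB⟩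
    · rw [mem_filter]
      exact ⟨hS, hDg⟩
  have h1 : (G.card : ℝ) ≤
      ∑ p ∈ P, ((G.filter fun S => Dg p.1 p.2.1 p.2.2 (la (zz X) S)).card : ℝ) := by
    exact_mod_cast (card_le_card hsub).trans card_biUnion_le
  have h2 : ∀ p ∈ P, ((G.filter fun S => Dg p.1 p.2.1 p.2.2 (la (zz X) S)).card : ℝ) ≤
      14175 * lg (pN S₀) * (((X / pN S₀ : ℕ) : ℝ) * (lg (X / pN S₀)) ^ (-(1 / 3) : ℝ)) := by
    intro p hp
    rw [hP, mem_filter, mem_product, mem_product, mem_powerset, mem_powerset] at hp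
    refine pair_count X (zz X) S₀ hS₀ p.1 p.2.1 p.2.2 hp.1.2.1 hp.1.2.2 hp.2.1 hp.2.2 _ ?_
    intro S hS
    rw [mem_filter] at hS
    have h := hG S hS.1
    exact ⟨⟨h.1, h.2.2⟩, hS.2⟩
  have h3 : (P.card : ℝ) ≤ 3 * 4 ^ S₀.card := by
    have : P.card ≤ 3 * 4 ^ S₀.card := by
      refine (card_filter_le _ _).trans (le_of_eq ?_)
      rw [card_product, card_product, card_powerset, ← mul_pow, card_univ, ZMod.card]
      norm_num
    exact_mod_cast this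
  have hTl : 0 ≤ ((X / pN S₀ : ℕ) : ℝ) * (lg (X / pN S₀)) ^ (-(1 / 3) : ℝ) :=
    mul_nonneg (Nat.cast_nonneg _) (Real.rpow_nonneg (zero_le_one.trans (one_le_lg _)) _)
  have hlg := lg_pos (pN S₀)
  calc (G.card : ℝ) ≤ ∑ p ∈ P, 14175 * lg (pN S₀) * (((X / pN S₀ : ℕ) : ℝ) *
        (lg (X / pN S₀)) ^ (-(1 / 3) : ℝ)) := h1.trans (sum_le_sum h2)
    _ = P.card * (14175 * lg (pN S₀) * (((X / pN S₀ : ℕ) : ℝ) *
        (lg (X / pN S₀)) ^ (-(1 / 3) : ℝ))) := by rw [sum_const, nsmul_eq_mul]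
    _ ≤ (3 * 4 ^ S₀.card) * (14175 * lg (pN S₀) * (((X / pN S₀ : ℕ) : ℝ) *
        (lg (X / pN S₀)) ^ (-(1 / 3) : ℝ))) :=
        mul_le_mul_of_nonneg_right h3 (by positivity)
    _ = _ := by ring

theorem t_BAD : S_BAD := by
  intro ε hε
  obtain ⟨X₀, hX₀⟩ := gen 4 42525 (by norm_num) (by norm_num)
    (fun X S => ¬ Nd (sm (zz X) S) (la (zz X) S))
    (fun X S₀ hS₀ _ F hF => bad_count X S₀ hS₀ F hF) ε hε
  refine ⟨X₀, fun X hX => hX₀ X hX _ fun S hS => ?_⟩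
  rw [mem_filter] at hS
  exact hS

end Pool.Agent.H462.CTU.Law
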