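import Pool.Agent.H462.CTU.Law.Asy
import Pool.Agent.H462.CTU.Law.Box
import Pool.Agent.H462.CTU.Law.CNT
import Pool.Agent.H462.CTU.Law.Few
import Pool.Graph.R_seed8.Y703.XL.Fin

/-!
# The law of the coranks with an additional node
-/

set_option autoImplicit false

open scoped Classical
open Finset Filter

namespace Pool.Agent.H462.CTU.Law

open Pool.Agent.Y692.QS (Ei w nr toC)
open Pool.Agent.Y715.T.RecG (Pq)
open Pool.Agent.Y699.E (nrm nrm_cast nrm_mul nrm_one QB mem_QB PD mem_PD PS PS_prod fin_pd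
  norm_le_of_dvd)
open Pool.Agent.Y703.XL (cr t_C9 t_LA)
open Pool.Agent.Y550.XK.NS (nrm_prod)

theorem t_LOW : S_LOW := by
  obtain ⟨c, X₀, hc, h⟩ := Pool.Agent.Y550.XK.NS.t_LOW
  refine ⟨c, X₀, hc, fun X hX => (h X hX).trans ?_⟩
  norm_cast
  refine card_le_card ?_
  intro S hS
  unfold Pool.Agent.Y703.XK.SS at hS
  unfold SS
  rw [mem_filter] at hS ⊢
  exact ⟨hS.1, ⟨hS.2.1.1, trivial⟩, hS.2.2⟩

theorem t_KEG' {k : ZMod 3} (hk : k ≠ 0) (r : ℕ) : KEG (Gr k r) (cr r) (3 ^ (r + 2)) :=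
  t_KEG Pool.Agent.Y363.XK.t_BIL (t_BOX Pool.Agent.Y710.XK.t_EQ t_LA hk r) (by positivity)

/-- **the law of the coranks** -/
theorem t_DQ_all {k : ZMod 3} (hk : k ≠ 0) : S_DQ k :=
  t_DQ (t_KEG' hk) Pool.Agent.H462.CTU.Law.Cnt.t_CNT t_BAD t_FEW t_LOW t_C9

/-! ### the sets and the elements -/

theorem mem_SS' {X : ℕ} {S : Finset Ei} : S ∈ SS X ↔ (∀ π ∈ S, Pq π) ∧ ∏ π ∈ S, nrm π ≤ X := by
  rw [mem_SS]
  unfold Cl
  tauto

theorem PD_mem {X : ℕ} {D : Ei} (hD : PS D) : PD D ∈ SS X ↔ nrm D ≤ X := by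
  rw [mem_SS', ← nrm_prod, hD.prod]
  exact ⟨fun h => h.2, fun h => ⟨fun π hπ => ((mem_PD hD.ne).1 hπ).1, h⟩⟩

/-- the elements `ε ω^k D'` -/
theorem card_el (X : ℕ) (Q : Finset Ei → Prop) (u : Ei) (hu : nr u = 1) :
    {D : Ei | ∃ D' : Ei, PS D' ∧ nrm D' ≤ X ∧ Q (PD D') ∧ D = u * D'}.ncard =
      ((SS X).filter Q).card := by
  have hu0 : u ≠ 0 := by
    rintro rfl
    exact absurd hu (by decide)
  have h1 : {D : Ei | ∃ D' : Ei, PS D' ∧ nrm D' ≤ X ∧ Q (PD D') ∧ D = u * D'} =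
      (fun S : Finset Ei => u * ∏ π ∈ S, π) '' (((SS X).filter Q : Finset (Finset Ei)) :
        Set (Finset Ei)) := by
    ext D
    constructor
    · rintro ⟨D', hD, h1, h2, rfl⟩
      refine ⟨PD D', ?_, ?_⟩
      · rw [Finset.mem_coe, Finset.mem_filter]
        exact ⟨(PD_mem hD).2 h1, h2⟩
      · show u * ∏ π ∈ PD D', π = u * D'
        rw [hD.prod]
    · rintro ⟨S, hS, rfl⟩
      rw [Finset.mem_coe, Finset.mem_filter, mem_SS'] at hS
      obtain ⟨⟨h3, h4⟩, h2⟩ := hS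
      obtain ⟨h5, h6⟩ := PS_prod h3
      refine ⟨∏ π ∈ S, π, h5, by rw [nrm_prod]; exact h4, ?_, rfl⟩
      rw [h6]
      exact h2
  rw [h1, Set.ncard_image_of_injOn, Set.ncard_coe_finset]
  intro S hS S' hS' h
  rw [Finset.mem_coe, Finset.mem_filter, mem_SS'] at hS hS'
  rw [← (PS_prod hS.1.1).2, ← (PS_prod hS'.1.1).2]
  exact congrArg PD (mul_left_cancel₀ hu0 h)

end Pool.Agent.H462.CTU.Law
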