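import Pool.Graph.R_seed8.Y699.E.Hal2
import Pool.Agent.H462.CTU.LK

/-!
# Mean values of multiplicative functions: characters with a factor modulo nine
-/

set_option autoImplicit false

open Finset

namespace Pool.Agent.H462.CTU.Law

open Pool.Agent.Y692.QS (Ei w nr nr_mul nr_nonneg)
open Pool.Agent.Y715.T.Rec (cs)
open Pool.Agent.Y715.T.RecG (Pq)
open Pool.Agent.Y699.E
open Pool.Agent.H462.CTU.Chr (nq nq_of nq_mul nq_congr)
open Pool.Agent.H462.CTU.LK (nr_mod)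
open scoped ComplexConjugate

/-- the character `ζ^{c (N a - 1) / 3}` -/
noncomputable def ch9 (c : ZMod 3) (a : Ei) : ℂ := if (3 : ℤ) ∣ nr a then 0 else ez (c * nq a)

lemma ch9_mul (c : ZMod 3) (a b : Ei) : ch9 c (a * b) = ch9 c a * ch9 c b := by
  unfold ch9
  rw [nr_mul]
  have h3 : (3 : ℤ) ∣ nr a * nr b ↔ (3 : ℤ) ∣ nr a ∨ (3 : ℤ) ∣ nr b := Int.prime_three.dvd_mul
  by_cases h1 : (3 : ℤ) ∣ nr a
  · rw [if_pos (h3.2 (Or.inl h1)), if_pos h1, zero_mul]
  by_cases h2 : (3 : ℤ) ∣ nr b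
  · rw [if_pos (h3.2 (Or.inr h2)), if_pos h2, mul_zero]
  rw [if_neg (fun h => (h3.1 h).elim h1 h2), if_neg h1, if_neg h2,
    nq_mul (nr_mod h1) (nr_mod h2), mul_add, ez_add]

lemma ch9_one (c : ZMod 3) : ch9 c 1 = 1 := by
  unfold ch9
  have h1 : nr (1 : Ei) = 1 := by decide
  rw [if_neg (by rw [h1]; norm_num), nq_of (a := 0) (by rw [h1]; norm_num)]
  simp [ez_zero]

lemma ch9_cases (c : ZMod 3) (a : Ei) : ch9 c a = 0 ∨ ∃ d : ZMod 3, ch9 c a = ez d := by
  unfold ch9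
  split_ifs
  · exact Or.inl rfl
  · exact Or.inr ⟨_, rfl⟩

lemma ch9_per (c : ZMod 3) {a b : Ei} (h : (9 : Ei) ∣ a - b) : ch9 c a = ch9 c b := by
  have h9 : (9 : ℤ) ∣ nr a - nr b := by
    obtain ⟨x, hx⟩ := h
    obtain ⟨p, q⟩ := x
    obtain ⟨s, t⟩ := b
    have e : a = (⟨s + 9 * p, t + 9 * q⟩ : Ei) := by
      have h0 : a = ⟨s, t⟩ + 9 * ⟨p, q⟩ := by rw [← hx]; ring
      have h1 : (9 : Ei) = ⟨9, 0⟩ := by decide
      rw [h0, h1]
      ext
      · simp
      · simp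
    rw [e]
    show (9 : ℤ) ∣ ((s + 9 * p) ^ 2 - (s + 9 * p) * (t + 9 * q) + (t + 9 * q) ^ 2) -
      (s ^ 2 - s * t + t ^ 2)
    exact ⟨2 * s * p + 9 * p ^ 2 - s * q - p * t - 9 * p * q + 2 * t * q + 9 * q ^ 2, by ring⟩
  unfold ch9
  have h3 : (3 : ℤ) ∣ nr a ↔ (3 : ℤ) ∣ nr b := by omega
  by_cases h1 : (3 : ℤ) ∣ nr b
  · rw [if_pos (h3.2 h1), if_pos h1]
  · rw [if_neg (fun h => h1 (h3.1 h)), if_neg h1,
      nq_congr (nr_mod (fun h => h1 (h3.1 h))) h9]

/-- the character attached to two elements and a residue -/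
noncomputable def yab (c : ZMod 3) (A B a : Ei) : ℂ := xab A B a * ch9 c a

lemma xab_cases (A B a : Ei) : xab A B a = 0 ∨ ∃ d : ZMod 3, xab A B a = ez d := by
  unfold xab
  rcases jac_cases A a with h | ⟨c, h⟩
  · left; rw [h, zero_mul]
  · rcases jac_cases B a with h' | ⟨c', h'⟩
    · left; rw [h', map_zero, mul_zero]
    · right
      exact ⟨c + -c', by rw [h, h', conj_ez, ← ez_add]⟩

lemma yab_ch (c : ZMod 3) {A B : Ei} (hA : PS A) (hB : PS B) : CH (yab c A B) := by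
  refine ⟨?_, ?_, ?_⟩
  · unfold yab
    rw [(xab_ch hA hB).one, ch9_one, one_mul]
  · intro a b
    unfold yab
    rw [(xab_ch hA hB).mul, ch9_mul]
    ring
  · intro a
    unfold yab
    rcases xab_cases A B a with h | ⟨d, h⟩
    · left; rw [h, zero_mul]
    · rcases ch9_cases c a with h' | ⟨d', h'⟩
      · left; rw [h', mul_zero]
      · right
        rw [h, h', ← ez_add]
        exact ez_val _

open Classical in
/-- the character on primary elements -/
noncomputable def FFc (c : ZMod 3) (x x' a : Ei) : ℂ := if prm a then yab c x x' a else 0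

lemma FFc_norm (c : ZMod 3) {x x' : Ei} (hx : PS x) (hx' : PS x') (a : Ei) :
    ‖FFc c x x' a‖ ≤ 1 := by
  unfold FFc
  split_ifs
  · exact (yab_ch c hx hx').norm_le a
  · simp

/-- the sum over an ellipse, if the factor modulo nine is not trivial -/
lemma FFc_sum {c : ZMod 3} (hc : c ≠ 0) {x x' : Ei} (hx : PS x) (hx' : PS x') (V : ℕ) :
    ‖∑ a ∈ ZB V, FFc c x x' a‖ ≤ 243 * (nrm x * nrm x') * (3 * Real.sqrt V + 1) := by
  classical
  have h9 : (9 : Ei) ≠ 0 := by decide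
  have hq : 9 * (x * x') ≠ 0 := mul_ne_zero h9 (mul_ne_zero hx.ne hx'.ne)
  -- the element which changes only the factor modulo nine
  obtain ⟨m, hm⟩ : ∃ m : Ei, m = x * x' := ⟨_, rfl⟩
  have hm3 : (3 : Ei) ∣ m - 1 := by
    have h1 : (3 : Ei) ∣ x - 1 := hx.prm
    have h2 : (3 : Ei) ∣ x' - 1 := hx'.prm
    have e : m - 1 = (x - 1) * x' + (x' - 1) := by rw [hm]; ring
    rw [e]
    exact dvd_add (h1.mul_right _) h2
  obtain ⟨d, hd⟩ : ∃ d : Ei, d = 1 + 3 * m := ⟨_, rfl⟩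
  have hd1 : prm d := ⟨m, by rw [hd]; ring⟩
  have hdx : x ∣ d - 1 := ⟨3 * x', by rw [hd, hm]; ring⟩
  have hdx' : x' ∣ d - 1 := ⟨3 * x, by rw [hd, hm]; ring⟩
  have hnq : nq d = 2 := by
    obtain ⟨⟨p, q⟩, hpq⟩ := hm3
    have e : d = (⟨1 + 3 * (1 + 3 * p), 3 * (3 * q)⟩ : Ei) := by
      have h0 : m = 1 + 3 * ⟨p, q⟩ := by rw [← hpq]; ring
      have h1 : (3 : Ei) = ⟨3, 0⟩ := by decide
      have h2 : (1 : Ei) = ⟨1, 0⟩ := by decide
      rw [hd, h0, h1, h2]
      ext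
      · simp
      · simp
    have h3 : nr d = 1 + 3 * (2 * (1 + 3 * p) - 3 * q + 3 * ((1 + 3 * p) ^ 2 -
        (1 + 3 * p) * (3 * q) + (3 * q) ^ 2)) := by
      rw [e]
      show (1 + 3 * (1 + 3 * p)) ^ 2 - (1 + 3 * (1 + 3 * p)) * (3 * (3 * q)) + (3 * (3 * q)) ^ 2 = _
      ring
    rw [nq_of h3]
    push_cast
    have h4 : (3 : ZMod 3) = 0 := by decide
    rw [h4]
    ring
  have hnr : ¬ (3 : ℤ) ∣ nr d := by
    intro h
    obtain ⟨t, ht⟩ := hd1
    obtain ⟨u1, u2, h1, -⟩ := Pool.Agent.Y703.CT.ex_q (⟨t, ht⟩ : (3 : Ei) ∣ d - 1)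
    rw [h1, Pool.Agent.Y703.CT.nr_form] at h
    omega
  have hcd : ch9 c d = ez (c * 2) := by
    unfold ch9
    rw [if_neg hnr, hnq]
  have hz : ez (c * 2) ≠ 1 := by
    have h0 : c * 2 ≠ 0 := (by decide : ∀ c : ZMod 3, c ≠ 0 → c * 2 ≠ 0) c hc
    intro h1
    have h2 := ez_root h0
    rw [h1] at h2
    norm_num at h2
  have hxd : xab x x' d = 1 := by
    unfold xab
    have e1 : jac x d = jac x 1 := jac_per hx.ne hdx
    have e2 : jac x' d = jac x' 1 := jac_per hx'.ne hdx'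
    rw [e1, e2, jac_one_right hx.ne, jac_one_right hx'.ne, map_one, one_mul]
  have hcop : IsCoprime d (9 * (x * x')) := by
    have c1 : IsCoprime d 3 := ⟨1, -m, by rw [hd]; ring⟩
    have c9 : IsCoprime d 9 := by
      have e : (9 : Ei) = 3 * 3 := by decide
      rw [e]
      exact c1.mul_right c1
    have c2 : IsCoprime d (x * x') := ⟨1, -3, by rw [hd, hm]; ring⟩
    exact c9.mul_right c2
  have h3 := csum hq (f := FFc c x x') ?_ (FFc_norm c hx hx') hcop hz ?_ V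
  · refine h3.trans (le_of_eq ?_)
    have e9 : nrm (9 : Ei) = 81 := by decide
    rw [nrm_mul, nrm_mul, e9]
    push_cast
    ring
  · intro a b hab
    unfold FFc
    have e9 : (9 : Ei) ∣ a - b := (dvd_mul_right _ _).trans hab
    have e39 : (3 : Ei) ∣ 9 := ⟨3, by decide⟩
    have e1 : (3 : Ei) ∣ a - b := dvd_trans e39 e9
    have e2 : x ∣ a - b := ((dvd_mul_right _ _).trans (dvd_mul_left _ _)).trans hab
    have e3 : x' ∣ a - b := ((dvd_mul_left _ _).trans (dvd_mul_left _ _)).trans hab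
    have e4 : prm a ↔ prm b := by
      unfold prm
      constructor
      · intro h
        have := dvd_sub h e1
        have e : a - 1 - (a - b) = b - 1 := by ring
        rwa [e] at this
      · intro h
        have := dvd_add h e1
        have e : b - 1 + (a - b) = a - 1 := by ring
        rwa [e] at this
    unfold yab xab
    rw [jac_per hx.ne e2, jac_per hx'.ne e3, ch9_per c e9]
    by_cases h : prm a
    · rw [if_pos h, if_pos (e4.1 h)]
    · rw [if_neg h, if_neg (fun hh => h (e4.2 hh))]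
  · intro a
    unfold FFc
    have e4 : prm (d * a) ↔ prm a :=
      ⟨fun h => prm_cancel hd1 h, fun h => prm_mul hd1 h⟩
    by_cases h : prm a
    · rw [if_pos h, if_pos (e4.2 h), (yab_ch c hx hx').mul]
      congr 1
      unfold yab
      rw [hxd, hcd, one_mul]
    · rw [if_neg h, if_neg (fun hh => h (e4.1 hh)), mul_zero]

/-- character sums -/
lemma chs_le_c {c : ZMod 3} (hc : c ≠ 0) {A B : Ei} (hA : PS A) (hB : PS B) {v : ℕ}
    (hv : 1 ≤ v) :
    ‖∑ d ∈ PB v, yab c A B d‖ ≤ 108 * (9 * (nrm A * nrm B) : ℕ) * Real.sqrt v := by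
  classical
  have h := FFc_sum hc hA hB v
  have e : ∑ a ∈ ZB v, FFc c A B a = ∑ d ∈ PB v, yab c A B d := by
    unfold PB
    rw [sum_filter]
    refine sum_congr rfl fun a _ => ?_
    unfold FFc
    rfl
  rw [e] at h
  have h2 : (1 : ℝ) ≤ Real.sqrt v := Real.one_le_sqrt.2 (by exact_mod_cast hv)
  have h3 : (0 : ℝ) ≤ (nrm A : ℝ) * nrm B := by positivity
  refine h.trans ?_
  push_cast
  nlinarith

/-- partial sums of the L-series at 1 -/
theorem chs_logX {χ : Ei → ℂ} (hch : CH χ) {N : ℕ} (hN1 : 1 ≤ N)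
    (hle : ∀ v : ℕ, 1 ≤ v → ‖∑ d ∈ PB v, χ d‖ ≤ 108 * N * Real.sqrt v) (Y : ℕ) :
    ‖∑ d ∈ PB Y, χ d / nrm d‖ ≤ 264 * lg N := by
  classical
  have hlg := one_le_lg N
  rcases Nat.eq_zero_or_pos Y with h0 | hY
  · have : PB Y = ∅ := by
      rw [eq_empty_iff_forall_notMem]
      intro x hx
      rw [mem_PB] at hx
      have := nrm_pos' (prm_ne_zero hx.2)
      omega
    rw [this, sum_empty, norm_zero]
    linarith
  have hYr : (0 : ℝ) < Y := by exact_mod_cast hY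
  -- summation by parts
  have e1 : ∑ d ∈ PB Y, χ d / nrm d = (∑ d ∈ PB Y, χ d) * ((1 / Y : ℝ) : ℂ) +
      ∑ v ∈ Ico 1 Y, (∑ d ∈ PB v, χ d) * ((1 / ((v : ℝ) * (v + 1)) : ℝ) : ℂ) := by
    have e2 : ∀ d ∈ PB Y, χ d / nrm d = χ d * ((1 / Y : ℝ) : ℂ) +
        ∑ v ∈ Ico 1 Y, if nrm d ≤ v then χ d * ((1 / ((v : ℝ) * (v + 1)) : ℝ) : ℂ) else 0 := by
      intro d hd
      rw [mem_PB] at hd
      have hd1 := nrm_pos' (prm_ne_zero hd.2)
      have h2 := inv_tel (nrm d) hd1 Y hd.1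
      have h3 : χ d / (nrm d : ℂ) = χ d * ((1 / (nrm d : ℝ) : ℝ) : ℂ) := by
        push_cast
        rw [mul_one_div]
      rw [h3, h2, Complex.ofReal_add, mul_add]
      congr 1
      rw [Complex.ofReal_sum, mul_sum, ← sum_filter]
      refine sum_congr ?_ fun _ _ => rfl
      ext v
      rw [mem_filter, mem_Ico, mem_Ico]
      constructor
      · rintro ⟨a1, a2⟩; exact ⟨⟨by omega, a2⟩, a1⟩
      · rintro ⟨⟨-, a2⟩, a1⟩; exact ⟨a1, a2⟩
    rw [sum_congr rfl e2, sum_add_distrib, ← sum_mul, sum_comm]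
    congr 1
    refine sum_congr rfl fun v hv => ?_
    rw [mem_Ico] at hv
    rw [← sum_filter, ← sum_mul]
    congr 1
    refine sum_congr ?_ fun _ _ => rfl
    ext d
    rw [mem_filter, mem_PB, mem_PB]
    constructor
    · rintro ⟨⟨-, a2⟩, a1⟩; exact ⟨a1, a2⟩
    · rintro ⟨a1, a2⟩; exact ⟨⟨by omega, a2⟩, a1⟩
  rw [e1]
  refine (norm_add_le _ _).trans ?_
  have nr : ∀ {r : ℝ}, 0 ≤ r → ‖(r : ℂ)‖ = r := fun {r} h => by
    rw [Complex.norm_real, Real.norm_of_nonneg h]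
  have e3 : ‖(∑ d ∈ PB Y, χ d) * ((1 / Y : ℝ) : ℂ)‖ ≤ 16 := by
    rw [norm_mul, nr (by positivity), mul_one_div, div_le_iff₀ hYr]
    exact chs_le' hch hY
  have e4 : ∀ v ∈ Ico 1 Y, ‖(∑ d ∈ PB v, χ d) * ((1 / ((v : ℝ) * (v + 1)) : ℝ) : ℂ)‖ ≤
      (if v < N ^ 2 then 16 * (1 / ((v : ℝ) + 1)) else 0) +
      (if N ^ 2 ≤ v then 108 * N * (Real.sqrt v / (v * (v + 1))) else 0) := by
    intro v hv
    rw [mem_Ico] at hv
    have v0 : (0 : ℝ) < v := by exact_mod_cast hv.1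
    have hp : (0 : ℝ) < 1 / ((v : ℝ) * (v + 1)) := by positivity
    rw [norm_mul, nr hp.le]
    by_cases h : v < N ^ 2
    · rw [if_pos h, if_neg (by omega), add_zero]
      calc ‖∑ d ∈ PB v, χ d‖ * (1 / ((v : ℝ) * (v + 1))) ≤ (16 * v) * (1 / ((v : ℝ) * (v + 1))) :=
            mul_le_mul_of_nonneg_right (chs_le' hch hv.1) hp.le
        _ = 16 * (1 / ((v : ℝ) + 1)) := by field_simp
    · rw [if_neg h, if_pos (by omega), zero_add]
      calc ‖∑ d ∈ PB v, χ d‖ * (1 / ((v : ℝ) * (v + 1))) ≤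
            (108 * N * Real.sqrt v) * (1 / ((v : ℝ) * (v + 1))) :=
            mul_le_mul_of_nonneg_right (hle v hv.1) hp.le
        _ = 108 * N * (Real.sqrt v / (v * (v + 1))) := by ring
  have e5 : ‖∑ v ∈ Ico 1 Y, (∑ d ∈ PB v, χ d) * ((1 / ((v : ℝ) * (v + 1)) : ℝ) : ℂ)‖ ≤
      16 * (2 * lg N) + 216 := by
    refine (norm_sum_le _ _).trans ((sum_le_sum e4).trans ?_)
    rw [sum_add_distrib]
    have hN2 : 1 ≤ N ^ 2 := Nat.one_le_pow _ _ hN1
    have a1 : ∑ v ∈ Ico 1 Y, (if v < N ^ 2 then 16 * (1 / ((v : ℝ) + 1)) else 0) ≤ 16 * (2 * lg N) := by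
      rw [← sum_filter, ← mul_sum]
      have h2 : ∑ v ∈ (Ico 1 Y).filter (fun v => v < N ^ 2), (1 : ℝ) / ((v : ℝ) + 1) ≤
          ∑ v ∈ Ico 1 (N ^ 2), (1 : ℝ) / ((v : ℝ) + 1) := by
        refine sum_le_sum_of_subset_of_nonneg ?_ (fun _ _ _ => by positivity)
        intro v hv
        rw [mem_filter, mem_Ico] at hv
        rw [mem_Ico]
        exact ⟨hv.1.1, hv.2⟩
      have h3 := harm_le (N ^ 2) hN2
      have h4 : Real.log ((N ^ 2 : ℕ) : ℝ) = 2 * Real.log N := by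
        push_cast
        rw [Real.log_pow]
        push_cast
        ring
      rw [h4] at h3
      have h5 := log_le_lg hN1
      linarith
    have a2 : ∑ v ∈ Ico 1 Y, (if N ^ 2 ≤ v then 108 * (N : ℝ) * (Real.sqrt v / (v * (v + 1))) else 0) ≤ 216 := by
      rw [← sum_filter, ← mul_sum]
      have h2 : ∑ v ∈ (Ico 1 Y).filter (fun v => N ^ 2 ≤ v), Real.sqrt v / ((v : ℝ) * (v + 1)) ≤
          ∑ v ∈ Ico (N ^ 2) (max Y (N ^ 2)), Real.sqrt v / ((v : ℝ) * (v + 1)) := by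
        refine sum_le_sum_of_subset_of_nonneg ?_ (fun _ _ _ => by positivity)
        intro v hv
        rw [mem_filter, mem_Ico] at hv
        rw [mem_Ico]
        exact ⟨hv.2, lt_of_lt_of_le hv.1.2 (le_max_left _ _)⟩
      have h3 := sqrt_tel (N ^ 2) hN2 (max Y (N ^ 2)) (le_max_right _ _)
      have h4 : Real.sqrt ((N ^ 2 : ℕ) : ℝ) = N := by
        push_cast
        exact Real.sqrt_sq (Nat.cast_nonneg _)
      rw [h4] at h3
      have h5 : (0 : ℝ) ≤ 1 / Real.sqrt ((max Y (N ^ 2) : ℕ) : ℝ) := by positivity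
      have Nr : (0 : ℝ) < N := by exact_mod_cast hN1
      calc 108 * (N : ℝ) * ∑ v ∈ (Ico 1 Y).filter (fun v => N ^ 2 ≤ v), Real.sqrt v / ((v : ℝ) * (v + 1))
          ≤ 108 * N * (2 * (1 / N)) := by
            apply mul_le_mul_of_nonneg_left _ (by positivity)
            linarith
        _ = 216 := by field_simp; norm_num
    linarith
  linarith

/-- **the mean value for a character** -/
theorem hallX {χ : Ei → ℂ} (hch : CH χ) {N : ℕ} (hN1 : 1 ≤ N)
    (hle : ∀ v : ℕ, 1 ≤ v → ‖∑ d ∈ PB v, χ d‖ ≤ 108 * N * Real.sqrt v) (T : ℕ) :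
    ∑ n ∈ SB T, mf (fun π => (1 + 2 * (χ π).re) / 3) n ≤
      2835 * (lg N) ^ (1 / 3 : ℝ) * (T * (lg T) ^ (-(1 / 3) : ℝ)) := by
  classical
  rcases Nat.eq_zero_or_pos T with h0 | hT
  · rw [SB_empty h0, sum_empty]
    have h2 := lg_pos T
    have h3 := lg_pos N
    positivity
  have hl := one_le_lg N
  have hlT := lg_pos T
  have hAA : ∑ n ∈ PB (T ^ 3), mf (fun π => 3 * ((1 + 2 * (χ π).re) / 3)) n / nrm n ≤
      (2460375 * lg N) * lg T ^ 2 := by
    have e1 : (fun π : Ei => 3 * ((1 + 2 * (χ π).re) / 3)) = fun π => 1 + 2 * (χ π).re := by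
      funext π; ring
    rw [e1]
    refine (conv_bound hch (chs_logX hch hN1 hle) (T ^ 3)).trans ?_
    have e5 := lg_cube T
    have e6 := lg_pos (T ^ 3)
    have e7 : (32 * lg (T ^ 3)) ^ 2 ≤ (96 * lg T) ^ 2 := by
      apply pow_le_pow_left₀ (by positivity)
      linarith
    calc (32 * lg (T ^ 3)) ^ 2 * (264 * lg N) ≤ (96 * lg T) ^ 2 * (264 * lg N) := by
          apply mul_le_mul_of_nonneg_right e7 (by positivity)
      _ = 2433024 * (lg N * lg T ^ 2) := by ring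
      _ ≤ 2460375 * (lg N * lg T ^ 2) := by
          have : 0 ≤ lg N * lg T ^ 2 := by positivity
          linarith
      _ = _ := by ring
  have hv := fun π => hch.val π
  have h2 := hall_aux (g := fun π => (1 + 2 * (χ π).re) / 3)
    (fun π => by have := re_nonneg (hv π); linarith)
    (fun π => by have := re_le (hv π); linarith) hT (by linarith) hAA
  refine h2.trans (le_of_eq ?_)
  have e : (2460375 * lg N) ^ (1 / 3 : ℝ) = 135 * (lg N) ^ (1 / 3 : ℝ) := by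
    rw [Real.mul_rpow (by norm_num) (by linarith)]
    congr 1
    rw [show (2460375 : ℝ) = 135 ^ (3 : ℝ) by norm_num, ← Real.rpow_mul (by norm_num)]
    norm_num
  rw [e]
  ring

/-- the mean value for the characters `yab` -/
theorem hallY {c : ZMod 3} {A B : Ei} (hA : PS A) (hB : PS B) (h1 : A ≠ B ∨ c ≠ 0) (T : ℕ) :
    ∑ n ∈ SB T, mf (fun π => (1 + 2 * (yab c A B π).re) / 3) n ≤
      2835 * (lg (9 * (nrm A * nrm B))) ^ (1 / 3 : ℝ) * (T * (lg T) ^ (-(1 / 3) : ℝ)) := by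
  classical
  have hAB : 1 ≤ nrm A * nrm B := Nat.mul_pos (nrm_pos' hA.ne) (nrm_pos' hB.ne)
  by_cases hc : c = 0
  · have hAB' : A ≠ B := h1.resolve_right (fun h => h hc)
    have e1 : ∀ n ∈ SB T, mf (fun π => (1 + 2 * (yab c A B π).re) / 3) n =
        mf (fun π => (1 + 2 * (xab A B π).re) / 3) n := by
      intro n hn
      unfold mf
      refine prod_congr rfl fun π hπ => ?_
      have hπq : Pq π := ((mem_PD (mem_SB.1 hn).2.ne).1 hπ).1
      have h3 : ¬ (3 : ℤ) ∣ nr π := by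
        intro h
        obtain ⟨u1, u2, h1, -⟩ := Pool.Agent.Y703.CT.ex_q hπq.three
        rw [h1, Pool.Agent.Y703.CT.nr_form] at h
        omega
      have e2 : yab c A B π = xab A B π := by
        unfold yab ch9
        rw [if_neg h3, hc, zero_mul, ez_zero, mul_one]
      show (1 + 2 * (yab c A B π).re) / 3 = (1 + 2 * (xab A B π).re) / 3
      rw [e2]
    rw [sum_congr rfl e1]
    refine (hallG hA hB hAB' T).trans ?_
    have h2 : lg (nrm A * nrm B) ≤ lg (9 * (nrm A * nrm B)) := lg_mono (by omega)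
    have h3 := lg_pos (nrm A * nrm B)
    have h4 := lg_pos T
    gcongr
  · exact hallX (yab_ch c hA hB) (by omega) (fun v hv => chs_le_c hc hA hB hv) T

end Pool.Agent.H462.CTU.Law
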