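import Pool.Graph.R_seed8.Y703.XL.Stm
import Pool.Agent.H462.CTU.Chr

/-!
# The law of the coranks with an additional node: statements

`D` runs over all the squarefree primary elements of `ℤ[ω]`; the Laplacian of the symmetric matrix of
the cubic residue symbols of the prime divisors of `D` gets an additional node `none`, which stands
for the unit `ω` and is joined to the prime `π` with the label `(ω / π)^k`. The statements are those
of the projects XK and XL (`Pool/Agent/Y703/XK/Stm.lean`, `Pool/Agent/Y703/XL/Stm.lean`) with the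
additional labels and without the condition modulo nine.
-/

set_option autoImplicit false
set_option linter.unusedVariables false

open scoped Classical

namespace Pool.Agent.H462.CTU.Law

open Finset
open Pool.Agent.Y692.QS (Ei w nr toC)
open Pool.Agent.Y715.T.Rec (cs)
open Pool.Agent.Y715.T.RecG (Pq)
open Pool.Agent.Y699.E (ez nrm QB)
open Pool.Agent.Y703.CX (jj XX eL zz kk)
open Pool.Agent.Y703.XK (HB prs ext c9 sm la bl S_BIL S_EQ)
open Pool.Agent.Y703.XL (cr S_LA nA)
open Pool.Agent.H462.CTU.Chr (nq)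

/-- the sets of primary primes -/
def Cl (S : Finset Ei) : Prop := (∀ π ∈ S, Pq π) ∧ True

/-- the sets of the class with norm at most `X` -/
noncomputable def SS (X : ℕ) : Finset (Finset Ei) :=
  (QB X).powerset.filter fun S => Cl S ∧ ∏ π ∈ S, nrm π ≤ X

/-- the number of the solutions of the Laplacian system of a set with the additional node -/
noncomputable def nW (k : ZMod 3) (S : Finset Ei) : ℕ :=
  Nat.card {v : Option S → ZMod 3 // ∀ π : S, k * nq (π : Ei) * (v none - v (some π)) +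
    ∑ ρ : S, cs π ρ * (v (some ρ) - v (some π)) = 0}

/-- the sets whose solution space has dimension `r + 1` -/
def Gr (k : ZMod 3) (r : ℕ) (S : Finset Ei) : Prop := nW k S = 3 ^ (r + 1)

/-- the labels of the large primes with respect to the small ones and the unit are not
degenerate -/
def Nd (S₀ S₁ : Finset Ei) : Prop :=
  ∀ (c : ZMod 3) (v : Ei → ZMod 3), (c ≠ 0 ∨ ∃ u ∈ S₀, v u ≠ 0) →
    ∃ π ∈ S₁, c * nq π + ∑ u ∈ S₀, v u * cs u π ≠ 0

/-- the regular sets -/
noncomputable def RR (X z H k V : ℕ) : Finset (Finset Ei) :=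
  (SS X).filter fun S => Set.InjOn (bl H) (la z S : Set Ei) ∧ S.card ≤ k ∧
    (∏ π ∈ sm z S, nrm π) * ∏ π ∈ la z S, XX H (bl H π) ≤ X ∧
    (sm z S).card + V < (la z S).card

/-- sets with many primes, sets near the boundary, sets with two primes in a block. -/
structure CntP (C : ℝ) : Prop where
  one : 1 ≤ C
  all : ∀ X : ℕ, 1 ≤ X → ((SS X).card : ℝ) ≤ C * X
  many : ∀ X k : ℕ, 1 ≤ X → (((SS X).filter fun S => k < S.card).card : ℝ) * 2 ^ k ≤
    C * (X * (1 + Real.log X))
  cut : ∀ X z H k : ℕ, 1 ≤ X → 1 ≤ H → 1 ≤ k → (((SS X).filter fun S => S.card ≤ k ∧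
    X < (∏ π ∈ sm z S, nrm π) * ∏ π ∈ la z S, XX H (bl H π)).card : ℝ) ≤
      C * (X * (1 + Real.log X)) * (k / H) + C * X * Real.exp (-(Real.log X) / k)
  coll : ∀ X z H : ℕ, 1 ≤ X → 1 ≤ z → 1 ≤ H → (((SS X).filter fun S =>
    ¬ Set.InjOn (bl H) (la z S : Set Ei)).card : ℝ) ≤ C * (X * (1 + Real.log X)) / H + C * X / z

def S_CNT : Prop := ∃ C : ℝ, CntP C

/-- few sets have degenerate labels. -/
def S_BAD : Prop := ∀ ε : ℝ, 0 < ε → ∃ X₀ : ℕ, ∀ X : ℕ, X₀ ≤ X →
  (((SS X).filter fun S => S.card ≤ kk X ∧ ¬ Nd (sm (zz X) S) (la (zz X) S)).card : ℝ) ≤ ε * X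

/-- few sets have few large primes. -/
def S_FEW : Prop := ∀ (V : ℕ) (ε : ℝ), 0 < ε → ∃ X₀ : ℕ, ∀ X : ℕ, X₀ ≤ X →
  (((SS X).filter fun S => S.card ≤ kk X ∧ (la (zz X) S).card ≤ (sm (zz X) S).card + V).card : ℝ) ≤
    ε * X

/-- the class has positive density. -/
def S_LOW : Prop := ∃ (c : ℝ) (X₀ : ℕ), 0 < c ∧ ∀ X : ℕ, X₀ ≤ X → c * X ≤ ((SS X).card : ℝ)

/-- the law for the sets -/
def S_DQ (k : ZMod 3) : Prop := ∀ r : ℕ, Filter.Tendsto
  (fun X : ℕ => (((SS X).filter (Gr k r)).card : ℝ) / ((SS X).card : ℝ)) Filter.atTop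
    (nhds (cr r))

end Pool.Agent.H462.CTU.Law
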