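import Pool.Agent.H462.CTU.Law.Stm
import Pool.Graph.R_seed8.Y696.XL.Key3

/-!
# The sum over the boxes, with labels

Adapted from `Y696/XL/Key.lean`, `Key2.lean`, `Key3.lean` (helper697, helper696).
-/

set_option autoImplicit false

namespace Pool.Agent.H462.CTU.Law

open Finset
open Pool.Agent.Y692.QS (Ei w nr toC)
open Pool.Agent.Y715.T.Rec (cs)
open Pool.Agent.Y715.T.RecG (Pq)
open Pool.Agent.Y699.E (ez nrm QB mem_QB pq_nrm_two nrm_prod PS_prod PD SB mem_SB card_SB_le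
  hsum_SB lg)
open Pool.Agent.Y703.CX (jj XX)
open Pool.Agent.Y703.XK (HB prs ext sm la bl S_BIL S_EQ)
open Pool.Agent.XLK (le_XX fcc card_sub nrm_one_le ph ph_div ph_mod CC mem_CC sm_union sm_disj
  prod_split ph_inj prod_ph root_le24 hb_box card_QB_le sm_fill la_fill ph_fill prs_card lg_le
  sum_inv)
open Pool.Agent.H462.CTU.Chr (nq)
open scoped Classical

theorem mem_SS {X : ℕ} {S : Finset Ei} : S ∈ SS X ↔ Cl S ∧ ∏ π ∈ S, nrm π ≤ X := by
  unfold SS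
  rw [Finset.mem_filter, Finset.mem_powerset]
  constructor
  · exact fun h => h.2
  · intro h
    refine ⟨fun p hp => ?_, h⟩
    rw [mem_QB]
    have h1 : nrm p ≤ ∏ q ∈ S, nrm q :=
      Finset.single_le_prod' (f := fun q => nrm q) (fun q hq => nrm_one_le (h.1.1 q hq)) hp
    exact ⟨h1.trans h.2, h.1.1 p hp⟩

/-- the key of a set -/
noncomputable def ky (z H : ℕ) (S : Finset Ei) : Finset Ei × Finset ℕ :=
  (sm z S, (la z S).image (ph H))

/-- the conditions on a key -/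
def Cd (X K V H : ℕ) (S₀ : Finset Ei) (J : Finset ℕ) : Prop :=
  True ∧
  S₀.card + J.card ≤ K ∧ (∏ π ∈ S₀, nrm π) * ∏ i ∈ J, XX H (i / 9) ≤ X ∧
  S₀.card + V < J.card

theorem mem_RR {X z H K V : ℕ} (hH : 1 ≤ H) {S : Finset Ei} :
    S ∈ RR X z H K V ↔ (∀ p ∈ S, Pq p) ∧ Set.InjOn (bl H) (la z S : Set Ei) ∧
      Cd X K V H (ky z H S).1 (ky z H S).2 := by
  unfold RR
  rw [Finset.mem_filter, mem_SS]
  have hk1 : (ky z H S).1 = sm z S := rfl
  have hk2 : (ky z H S).2 = (la z S).image (ph H) := rfl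
  rw [hk1, hk2]
  have key : Set.InjOn (bl H) (la z S : Set Ei) →
      (S.card = (sm z S).card + ((la z S).image (ph H)).card) ∧
      (∏ i ∈ (la z S).image (ph H), XX H (i / 9) = ∏ p ∈ la z S, XX H (bl H p)) ∧
      (((la z S).image (ph H)).card = (la z S).card) := by
    intro h
    refine ⟨?_, ?_, ?_⟩
    · rw [Finset.card_image_of_injOn (ph_inj h), ← Finset.card_union_of_disjoint (sm_disj z S),
        sm_union]
    · rw [prod_ph h (fun i => XX H (i / 9))]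
      exact Finset.prod_congr rfl fun p _ => by rw [ph_div]
    · rw [Finset.card_image_of_injOn (ph_inj h)]
  unfold Cl Cd
  constructor
  · rintro ⟨⟨⟨h1, h2⟩, h5⟩, h6, h7, h8, h9⟩
    obtain ⟨k3, k4, k5⟩ := key h6
    refine ⟨h1, h6, ?_, ?_, ?_, ?_⟩
    · trivial
    · rw [← k3]; exact h7
    · rw [k4]; exact h8
    · rw [k5]; exact h9
  · rintro ⟨h1, h6, h2, h7, h8, h9⟩
    obtain ⟨k3, k4, k5⟩ := key h6
    rw [← k3] at h7
    rw [k4] at h8
    rw [k5] at h9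
    refine ⟨⟨⟨h1, h2⟩, ?_⟩, h6, h7, h8, h9⟩
    refine le_trans ?_ h8
    rw [prod_split z S]
    apply Nat.mul_le_mul_left
    exact Finset.prod_le_prod' fun p hp =>
      le_XX hH (nrm_one_le (h1 p (Finset.mem_filter.1 hp).1))

section fill
variable {z H : ℕ} {S₀ : Finset Ei} {J : Finset ℕ} {p : J → Ei}

theorem ky_fill (hH : 1 ≤ H) (h₀ : ∀ q ∈ S₀, nrm q ≤ z) (hp : ∀ i : J, p i ∈ CC z H i) :
    ky z H (S₀ ∪ univ.image p) = (S₀, J) := by
  unfold ky
  rw [sm_fill hH h₀ hp, la_fill hH h₀ hp, ph_fill hH hp]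

end fill

/-- the facts on the key of a regular set -/
theorem key_facts {X z H K V : ℕ} (hH : 1 ≤ H) {S₀ : Finset Ei} {J : Finset ℕ}
    (hkey : (S₀, J) ∈ (RR X z H K V).image (ky z H)) :
    (∀ q ∈ S₀, Pq q) ∧ (∀ q ∈ S₀, nrm q ≤ z) ∧ Set.InjOn (fun i : ℕ => i / 9) (J : Set ℕ) ∧
      Cd X K V H S₀ J ∧ (∀ i ∈ J, z ≤ XX H (i / 9) ∧
        ∃ q : Ei, Pq q ∧ z < nrm q ∧ nrm q ≤ X ∧ ph H q = i) := by
  rw [Finset.mem_image] at hkey
  obtain ⟨W, hW, hWk⟩ := hkey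
  have hWX : ∏ p ∈ W, nrm p ≤ X := by
    unfold RR at hW
    rw [Finset.mem_filter, mem_SS] at hW
    exact hW.1.2
  rw [mem_RR hH, hWk] at hW
  obtain ⟨h1, h2, h3⟩ := hW
  have hS₀ : sm z W = S₀ := congrArg Prod.fst hWk
  have hJ : (la z W).image (ph H) = J := congrArg Prod.snd hWk
  refine ⟨?_, ?_, ?_, h3, ?_⟩
  · intro q hq
    rw [← hS₀] at hq
    exact h1 q (Finset.mem_filter.1 hq).1
  · intro q hq
    rw [← hS₀] at hq
    exact (Finset.mem_filter.1 hq).2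
  · intro a ha b hb hab
    rw [Finset.mem_coe, ← hJ, Finset.mem_image] at ha hb
    obtain ⟨x, hx, rfl⟩ := ha
    obtain ⟨y, hy, rfl⟩ := hb
    simp only [ph_div] at hab
    have h4 : x = y := h2 (Finset.mem_coe.2 hx) (Finset.mem_coe.2 hy) hab
    rw [h4]
  · intro i hi
    rw [← hJ, Finset.mem_image] at hi
    obtain ⟨q, hq, rfl⟩ := hi
    have hqW := (Finset.mem_filter.1 hq).1
    have hqz := (Finset.mem_filter.1 hq).2
    have hqp := h1 q hqW
    have hqX : nrm q ≤ X := (Finset.single_le_prod' (f := fun q => nrm q)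
      (fun q hq => nrm_one_le (h1 q hq)) hqW).trans hWX
    refine ⟨?_, q, hqp, by omega, hqX, rfl⟩
    rw [ph_div]
    have h5 : nrm q ≤ XX H (bl H q) := le_XX hH (nrm_one_le hqp)
    omega

theorem key_bij {X z H K V : ℕ} (hH : 1 ≤ H) {S₀ : Finset Ei} {J : Finset ℕ}
    (hkey : (S₀, J) ∈ (RR X z H K V).image (ky z H)) (P : Finset Ei → Prop) :
    ((Fintype.piFinset fun i : J => CC z H i).filter fun p => P (S₀ ∪ univ.image p)).card =
      ((RR X z H K V).filter fun S => ky z H S = (S₀, J) ∧ P S).card := by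
  obtain ⟨h₀O, h₀, hJi, hCd, hJf⟩ := key_facts hH hkey
  apply Finset.card_bij (fun (p : J → Ei) _ => S₀ ∪ univ.image p)
  · intro p hp
    rw [Finset.mem_filter, Fintype.mem_piFinset] at hp
    obtain ⟨hp, hP⟩ := hp
    have hk := ky_fill hH h₀ hp
    rw [Finset.mem_filter]
    refine ⟨?_, hk, hP⟩
    rw [mem_RR hH, hk]
    refine ⟨?_, ?_, hCd⟩
    · intro q hq
      rw [Finset.mem_union, Finset.mem_image] at hq
      rcases hq with hq | ⟨i, -, rfl⟩
      · exact h₀O q hq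
      · exact ((mem_CC hH).1 (hp i)).1
    · rw [la_fill hH h₀ hp]
      intro a ha b hb hab
      rw [Finset.mem_coe, Finset.mem_image] at ha hb
      obtain ⟨i, -, rfl⟩ := ha
      obtain ⟨j, -, rfl⟩ := hb
      have h1 := ((mem_CC hH).1 (hp i)).2.2
      have h2 := ((mem_CC hH).1 (hp j)).2.2
      have h3 : i.1 / 9 = j.1 / 9 := by
        rw [← h1, ← h2, ph_div, ph_div]
        exact hab
      have h4 : i = j := Subtype.ext (hJi (Finset.mem_coe.2 i.2) (Finset.mem_coe.2 j.2) h3)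
      rw [h4]
  · intro p hp p' hp' h
    rw [Finset.mem_filter, Fintype.mem_piFinset] at hp hp'
    have h1 := la_fill hH h₀ hp.1
    rw [h, la_fill hH h₀ hp'.1] at h1
    funext i
    have h2 : p i ∈ univ.image p' := by
      rw [h1]
      exact Finset.mem_image_of_mem _ (Finset.mem_univ _)
    rw [Finset.mem_image] at h2
    obtain ⟨j, -, hj⟩ := h2
    have h3 := ((mem_CC hH).1 (hp.1 i)).2.2
    have h4 := ((mem_CC hH).1 (hp'.1 j)).2.2
    rw [hj, h3] at h4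
    rw [← hj, Subtype.ext h4]
  · intro S hS
    rw [Finset.mem_filter] at hS
    obtain ⟨hSR, hSk, hSP⟩ := hS
    rw [mem_RR hH] at hSR
    obtain ⟨hSO, hSI, -⟩ := hSR
    have hk1 : sm z S = S₀ := congrArg Prod.fst hSk
    have hk2 : (la z S).image (ph H) = J := congrArg Prod.snd hSk
    have hex : ∀ i : J, ∃ q ∈ la z S, ph H q = i := by
      rintro ⟨i, hi⟩
      rw [← hk2, Finset.mem_image] at hi
      exact hi
    choose p hp1 hp2 using hex
    have him : univ.image p = la z S := by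
      ext q
      rw [Finset.mem_image]
      constructor
      · rintro ⟨i, -, rfl⟩
        exact hp1 i
      · intro hq
        have hjq : ph H q ∈ J := by
          rw [← hk2]
          exact Finset.mem_image_of_mem _ hq
        exact ⟨⟨ph H q, hjq⟩, Finset.mem_univ _, ph_inj hSI (Finset.mem_coe.2 (hp1 _))
          (Finset.mem_coe.2 hq) (hp2 ⟨ph H q, hjq⟩)⟩
    have hSe : S₀ ∪ univ.image p = S := by rw [him, ← hk1, sm_union]
    refine ⟨p, ?_, hSe⟩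
    rw [Finset.mem_filter, Fintype.mem_piFinset, hSe]
    refine ⟨fun i => (mem_CC hH).2 ⟨hSO _ (Finset.mem_filter.1 (hp1 i)).1,
      not_le.1 (Finset.mem_filter.1 (hp1 i)).2, hp2 i⟩, hSP⟩

/-- the statement for the boxes, for the property `G`, the limit `cc` and the constant `B` -/
def BXG (G : Finset Ei → Prop) (cc B : ℝ) : Prop := ∀ (ι : Type) [Fintype ι] [LinearOrder ι]
  (C : ι → Finset Ei) (X : ι → ℕ) (κ : ℝ) (S₀ : Finset Ei) (t : ι → ZMod 3), 0 ≤ κ →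
  (∀ i, (C i).card ≤ X i) →
  HB C X κ → (∀ u ∈ S₀, Pq u) → (∀ i, ∀ π ∈ C i, Pq π ∧ π ∉ S₀) →
  (∀ i l, i ≠ l → Disjoint (C i) (C l)) → (∀ i, ∀ π ∈ C i, nq π = t i) →
  S₀.card + 1 < Fintype.card ι →
  |(((Fintype.piFinset C).filter fun p => Nd S₀ (univ.image p) ∧ G (S₀ ∪ univ.image p)).card : ℝ) -
      cc * (((Fintype.piFinset C).filter fun p => Nd S₀ (univ.image p)).card : ℝ)| ≤
    B * (3 ^ S₀.card / 3 ^ Fintype.card ι) *
      (((Fintype.piFinset C).filter fun p => Nd S₀ (univ.image p)).card : ℝ) +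
    3 ^ (S₀.card * Fintype.card ι + (prs ι).card) * (κ * ∏ j, (X j : ℝ))

/-- the sum over the boxes, for the property `G`, the limit `cc` and the constant `B` -/
def KEG (G : Finset Ei → Prop) (cc B : ℝ) : Prop := ∃ C : ℝ, 1 ≤ C ∧
  ∀ (X z H k V N : ℕ) (κ : ℝ), 1 ≤ X → 1 ≤ H → 1 ≤ z → 0 ≤ κ → C ≤ κ ^ 24 * z →
  (H : ℝ) * Real.log X < N → 1 ≤ V →
  |(((RR X z H k V).filter fun S => Nd (sm z S) (la z S) ∧ G S).card : ℝ) -
      cc * (((RR X z H k V).filter fun S => Nd (sm z S) (la z S)).card : ℝ)| ≤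
    B * (1 / 3 : ℝ) ^ V * ((RR X z H k V).card : ℝ) +
    (9 * N + 9 : ℝ) ^ k * (3 ^ (9 * k ^ 2 + 9) * κ) * (X * (1 + Real.log X))

/-- the statement for the boxes with the decidability of equality as a variable -/
theorem box_dec {G : Finset Ei → Prop} {cc B : ℝ} (hB : BXG G cc B) (ι : Type) [Fintype ι]
    [inst : DecidableEq ι]
    (lo : LinearOrder ι) (C : ι → Finset Ei) (X : ι → ℕ) (κ : ℝ) (S₀ : Finset Ei)
    (t : ι → ZMod 3) (h1 : 0 ≤ κ)
    (h2 : ∀ i, (C i).card ≤ X i) (h3 : HB C X κ) (h4 : ∀ u ∈ S₀, Pq u)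
    (h5 : ∀ i, ∀ π ∈ C i, Pq π ∧ π ∉ S₀) (h6 : ∀ i l, i ≠ l → Disjoint (C i) (C l))
    (h8 : ∀ i, ∀ π ∈ C i, nq π = t i) (h7 : S₀.card + 1 < Fintype.card ι) :
    |(((Fintype.piFinset C).filter fun p => Nd S₀ (univ.image p) ∧
        G (S₀ ∪ univ.image p)).card : ℝ) -
      cc * (((Fintype.piFinset C).filter fun p => Nd S₀ (univ.image p)).card : ℝ)| ≤
    B * (3 ^ S₀.card / 3 ^ Fintype.card ι) *
      (((Fintype.piFinset C).filter fun p => Nd S₀ (univ.image p)).card : ℝ) +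
    3 ^ (S₀.card * Fintype.card ι + (prs ι).card) * (κ * ∏ j, (X j : ℝ)) := by
  have h := hB ι C X κ S₀ t h1 h2 h3 h4 h5 h6 h8 h7
  have e : inst = fun a b => lo.toDecidableEq a b := Subsingleton.elim _ _
  subst e
  exact h


/-- the label of a residue modulo nine -/
def tq (m : ℕ) : ZMod 3 := (((m - 1) / 3 : ℕ) : ZMod 3)

theorem nq_tq {π : Ei} (h : Pq π) : nq π = tq (nrm π % 9) := by
  obtain ⟨x, y, h1, -⟩ := Pool.Agent.Y703.CT.ex_q h.three
  have h2 := Pool.Agent.Y703.CT.nr_form x y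
  rw [← h1] at h2
  obtain ⟨a, ha⟩ : ∃ a : ℤ, nr π = 1 + 3 * a := ⟨2 * x - y + 3 * nr (⟨x, y⟩ : Ei), by rw [h2]; ring⟩
  rw [Pool.Agent.H462.CTU.Chr.nq_of ha]
  have h3 : (nrm π : ℤ) = nr π := Pool.Agent.Y699.E.nrm_cast π
  unfold tq
  have h4 : (a : ℤ) ≡ ((((nrm π % 9) - 1) / 3 : ℕ) : ℤ) [ZMOD 3] := by
    unfold Int.ModEq
    omega
  exact (ZMod.intCast_eq_intCast_iff _ _ 3).2 h4


theorem per_key {G : Finset Ei → Prop} {cc B : ℝ} (hB : BXG G cc B) (hB0 : 0 ≤ B) {C₁ : ℝ}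
    (hb1 : ∀ (P Q : Finset Ei) (A B z : ℕ) (c d : Ei → ℂ) (a : ZMod 3),
      (∀ π ∈ P, Pq π ∧ nrm π ≤ A) → (∀ ρ ∈ Q, Pq ρ ∧ nrm ρ ≤ B) → Disjoint P Q → a ≠ 0 →
      1 ≤ z → z ≤ A → z ≤ B → (∀ π, ‖c π‖ ≤ 1) → (∀ ρ, ‖d ρ‖ ≤ 1) →
      ‖∑ π ∈ P, ∑ ρ ∈ Q, c π * d ρ * ez (a * cs π ρ)‖ ^ 24 * z ≤ C₁ * ((A : ℝ) * B) ^ 24)
    {X z H k V : ℕ} {κ : ℝ} (hH : 1 ≤ H) (hz : 1 ≤ z) (hκ : 0 ≤ κ)
    (h1 : C₁ ≤ κ ^ 24 * z) {S₀ : Finset Ei} {J : Finset ℕ}
    (hkey : (S₀, J) ∈ (RR X z H k V).image (ky z H)) (hV : 1 ≤ V) :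
    |(((RR X z H k V).filter fun S => ky z H S = (S₀, J) ∧
        (Nd (sm z S) (la z S) ∧ G S)).card : ℝ) -
      cc * (((RR X z H k V).filter fun S => ky z H S = (S₀, J) ∧
        Nd (sm z S) (la z S)).card : ℝ)| ≤
    B * (1 / 3 : ℝ) ^ V * (((RR X z H k V).filter fun S => ky z H S = (S₀, J) ∧ True).card : ℝ) +
      (3 ^ (9 * k ^ 2) * κ) * (X * (1 / ((∏ p ∈ S₀, nrm p : ℕ) : ℝ))) := by
  obtain ⟨h₀O, h₀, hJi, hCd, hJf⟩ := key_facts hH hkey
  obtain ⟨c1, c4, c5, c6⟩ := hCd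
  have hcJ : Fintype.card J = J.card := Fintype.card_coe J
  have hCmem : ∀ i : J, ∀ p ∈ CC z H i, Pq p ∧ z < nrm p ∧ nrm p ≤ XX H (i.1 / 9) := by
    intro i p hp
    obtain ⟨k1, k2, k3⟩ := (mem_CC hH).1 hp
    refine ⟨k1, k2, ?_⟩
    unfold CC at hp
    rw [Finset.mem_filter, mem_QB] at hp
    exact hp.1.1
  have hdis : ∀ i l : J, i ≠ l → Disjoint (CC z H (i : ℕ)) (CC z H (l : ℕ)) := by
    intro i l hil
    rw [Finset.disjoint_left]
    intro p hp hp'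
    have h5 := ((mem_CC hH).1 hp).2.2
    have h6 := ((mem_CC hH).1 hp').2.2
    exact hil (Subtype.ext (h5.symm.trans h6))
  have hzX : ∀ i : J, z ≤ XX H (i.1 / 9) := fun i => (hJf i i.2).1
  have hHB : HB (fun i : J => CC z H i) (fun i : J => 16 * XX H (i.1 / 9)) κ :=
    hb_box hb1 _ _ hz hκ h1 (fun i => by have := hzX i; omega)
      (fun i p hp => by
        obtain ⟨k1, k2, k3⟩ := hCmem i p hp
        exact ⟨k1, by omega⟩) hdis
  have hcard : ∀ i : J, (CC z H (i : ℕ)).card ≤ 16 * XX H (i.1 / 9) := by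
    intro i
    refine (Finset.card_filter_le _ _).trans (card_QB_le ?_)
    have := hzX i
    omega
  have hbox := box_dec hB J inferInstance (fun i : J => CC z H i)
    (fun i : J => 16 * XX H (i.1 / 9)) κ S₀ (fun i => tq (i.1 % 9)) hκ hcard hHB h₀O
    (fun i p hp => by
      obtain ⟨k1, k2, k3⟩ := hCmem i p hp
      refine ⟨k1, fun h => ?_⟩
      have := h₀ p h
      omega) hdis (fun i p hp => by
      obtain ⟨k1, k2, k3⟩ := (mem_CC hH).1 hp
      rw [nq_tq k1, ← ph_mod H p, k3]) (by rw [hcJ]; omega)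
  have e1 : (((Fintype.piFinset fun i : J => CC z H i).filter
      fun p => Nd S₀ (univ.image p) ∧ G (S₀ ∪ univ.image p)).card) =
      ((RR X z H k V).filter fun S => ky z H S = (S₀, J) ∧
        (Nd (sm z S) (la z S) ∧ G S)).card := by
    refine Eq.trans (fcc ?_) ((key_bij hH hkey (fun S => Nd (sm z S) (la z S) ∧ G S)).trans
      (fcc fun _ _ => Iff.rfl))
    intro p hp
    rw [Fintype.mem_piFinset] at hp
    rw [sm_fill hH h₀ hp, la_fill hH h₀ hp]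
  have e2 : (((Fintype.piFinset fun i : J => CC z H i).filter
      fun p => Nd S₀ (univ.image p)).card) =
      ((RR X z H k V).filter fun S => ky z H S = (S₀, J) ∧ Nd (sm z S) (la z S)).card := by
    refine Eq.trans (fcc ?_) ((key_bij hH hkey (fun S => Nd (sm z S) (la z S))).trans
      (fcc fun _ _ => Iff.rfl))
    intro p hp
    rw [Fintype.mem_piFinset] at hp
    rw [sm_fill hH h₀ hp, la_fill hH h₀ hp]
  rw [← e1, ← e2]
  have e3 : (((Fintype.piFinset fun i : J => CC z H i).filter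
      fun p => Nd S₀ (univ.image p)).card : ℝ) ≤
      (((RR X z H k V).filter fun S => ky z H S = (S₀, J) ∧ True).card : ℝ) := by
    rw [e2]
    have : (RR X z H k V).filter (fun S => ky z H S = (S₀, J) ∧ Nd (sm z S) (la z S)) ⊆
        (RR X z H k V).filter fun S => ky z H S = (S₀, J) ∧ True := by
      intro S hS
      rw [Finset.mem_filter] at hS ⊢
      exact ⟨hS.1, hS.2.1, trivial⟩
    exact_mod_cast Finset.card_le_card this
  refine hbox.trans ?_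
  have hr : (3 : ℝ) ^ S₀.card / 3 ^ Fintype.card J ≤ (1 / 3 : ℝ) ^ V := by
    rw [hcJ, div_le_iff₀ (by positivity), one_div, inv_pow, inv_mul_eq_div,
      le_div_iff₀ (by positivity), ← pow_add]
    exact pow_le_pow_right₀ (by norm_num) (by omega)
  have hJK : J.card ≤ k := by omega
  have hSK : S₀.card ≤ k := by omega
  obtain ⟨m, hm⟩ : ∃ m : ℕ, m = (prs J).card := ⟨_, rfl⟩
  have hpr : m ≤ k * k := by
    rw [hm]
    refine (prs_card J).trans ?_
    rw [hcJ]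
    exact Nat.mul_le_mul hJK hJK
  rw [← hm]
  have hN0 : (0 : ℝ) < ((∏ p ∈ S₀, nrm p : ℕ) : ℝ) := by
    exact_mod_cast Finset.prod_pos fun p hp => nrm_one_le (h₀O p hp)
  have hprod : ∏ j : J, ((16 * XX H (j.1 / 9) : ℕ) : ℝ) ≤
      3 ^ (3 * k) * (X * (1 / ((∏ p ∈ S₀, nrm p : ℕ) : ℝ))) := by
    have h5 : ∏ j : J, ((16 * XX H (j.1 / 9) : ℕ) : ℝ) =
        16 ^ J.card * ((∏ i ∈ J, XX H (i / 9) : ℕ) : ℝ) := by
      rw [← Finset.prod_coe_sort J (fun i => XX H (i / 9))]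
      push_cast
      rw [Finset.prod_mul_distrib, Finset.prod_const, Finset.card_univ, hcJ]
    have h6 : ((∏ i ∈ J, XX H (i / 9) : ℕ) : ℝ) ≤ X * (1 / ((∏ p ∈ S₀, nrm p : ℕ) : ℝ)) := by
      rw [mul_one_div, le_div_iff₀ hN0, mul_comm]
      exact_mod_cast c5
    have h7 : (16 : ℝ) ^ J.card ≤ 3 ^ (3 * k) := by
      calc (16 : ℝ) ^ J.card ≤ 27 ^ J.card := pow_le_pow_left₀ (by norm_num) (by norm_num) _
        _ = 3 ^ (3 * J.card) := by rw [pow_mul]; norm_num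
        _ ≤ 3 ^ (3 * k) := pow_le_pow_right₀ (by norm_num) (by omega)
    rw [h5]
    gcongr
  have hpw : (3 : ℝ) ^ (S₀.card * Fintype.card J + m) * 3 ^ (3 * k) ≤ 3 ^ (9 * k ^ 2) := by
    rw [← pow_add]
    apply pow_le_pow_right₀ (by norm_num)
    rw [hcJ]
    have h5 : S₀.card * J.card ≤ k * k := Nat.mul_le_mul hSK hJK
    have h6 : k ≤ k * k := by
      rcases Nat.eq_zero_or_pos k with h | h
      · rw [h]
      · exact Nat.le_mul_of_pos_left k h
    nlinarith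
  refine add_le_add ?_ ?_
  · gcongr
  · have hX1 : (0 : ℝ) ≤ X * (1 / ((∏ p ∈ S₀, nrm p : ℕ) : ℝ)) := by positivity
    calc (3 : ℝ) ^ (S₀.card * Fintype.card J + m) *
        (κ * ∏ j : J, ((16 * XX H (j.1 / 9) : ℕ) : ℝ)) ≤
        3 ^ (S₀.card * Fintype.card J + m) *
          (κ * (3 ^ (3 * k) * (X * (1 / ((∏ p ∈ S₀, nrm p : ℕ) : ℝ))))) := by gcongr
      _ = (3 ^ (S₀.card * Fintype.card J + m) * 3 ^ (3 * k)) *
          (κ * (X * (1 / ((∏ p ∈ S₀, nrm p : ℕ) : ℝ)))) := by ring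
      _ ≤ 3 ^ (9 * k ^ 2) * (κ * (X * (1 / ((∏ p ∈ S₀, nrm p : ℕ) : ℝ)))) := by gcongr
      _ = _ := by ring

theorem keg_err {X z H k V N : ℕ} {κ : ℝ} (hX : 1 ≤ X) (hH : 1 ≤ H) (hz : 1 ≤ z) (hκ : 0 ≤ κ)
    (hN : (H : ℝ) * Real.log X < N) {T : Finset (Finset Ei × Finset ℕ)}
    (hT : ∀ k' ∈ T, k' ∈ (RR X z H k V).image (ky z H)) :
    ∑ k' ∈ T, (3 ^ (9 * k ^ 2) * κ) * (X * (1 / ((∏ p ∈ k'.1, nrm p : ℕ) : ℝ))) ≤
      (9 * N + 9 : ℝ) ^ k * (3 ^ (9 * k ^ 2 + 9) * κ) * (X * (1 + Real.log X)) := by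
  -- the errors
  set U : Finset ℕ := range (9 * N) with hU
  set A := T.image Prod.fst with hA
  have hAp : ∀ S ∈ A, (∀ p ∈ S, Pq p) ∧ ∏ p ∈ S, nrm p ≤ X := by
    intro S hS
    rw [hA, Finset.mem_image] at hS
    obtain ⟨⟨S₀, J⟩, hk, rfl⟩ := hS
    obtain ⟨h₀O, h₀, hJi, hCd, hJf⟩ := key_facts hH (hT _ hk)
    refine ⟨fun p hp => h₀O p hp, ?_⟩
    have h4 : 1 ≤ ∏ i ∈ J, XX H (i / 9) := by
      apply Nat.one_le_iff_ne_zero.2
      rw [Finset.prod_ne_zero_iff]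
      intro i hi
      exact Nat.one_le_iff_ne_zero.1 (hz.trans (hJf i hi).1)
    calc ∏ p ∈ S₀, nrm p = (∏ p ∈ S₀, nrm p) * 1 := (mul_one _).symm
      _ ≤ (∏ p ∈ S₀, nrm p) * ∏ i ∈ J, XX H (i / 9) := Nat.mul_le_mul_left _ h4
      _ ≤ X := hCd.2.2.1
  have hsub : T ⊆ A ×ˢ (U.powerset.filter fun J => J.card ≤ k) := by
    intro k' hk
    obtain ⟨S₀, J⟩ := k'
    rw [Finset.mem_product, Finset.mem_filter, Finset.mem_powerset]
    obtain ⟨h₀O, h₀, hJi, hCd, hJf⟩ := key_facts hH (hT _ hk)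
    have hc := hCd.2.1
    refine ⟨Finset.mem_image_of_mem _ hk, ?_, (Nat.le_add_left _ _).trans hc⟩
    intro i hi
    obtain ⟨k2, q, hq, hzq, hqX, hqi⟩ := hJf i hi
    rw [hU, Finset.mem_range]
    have hH0 : (0 : ℝ) < H := by exact_mod_cast hH
    have hq0 : (0 : ℝ) < nrm q := by exact_mod_cast nrm_one_le hq
    have h4 : (H : ℝ) * Real.log (nrm q) ≤ H * Real.log X := by
      apply mul_le_mul_of_nonneg_left _ hH0.le
      exact Real.log_le_log hq0 (by exact_mod_cast hqX)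
    have h5 : ((⌊(H : ℝ) * Real.log (nrm q)⌋₊ : ℕ) : ℝ) < N :=
      (Nat.floor_le (mul_nonneg hH0.le (Real.log_natCast_nonneg _))).trans_lt (h4.trans_lt hN)
    have h6 : bl H q < N := by
      unfold bl jj
      exact_mod_cast h5
    have h7 := ph_div H q
    rw [hqi] at h7
    omega
  have hX0 : (0 : ℝ) ≤ X := Nat.cast_nonneg X
  have hcU : ((U.powerset.filter fun J => J.card ≤ k).card : ℝ) ≤ (9 * N + 9 : ℝ) ^ k := by
    have h4 := card_sub U k
    have h5 : U.card = 9 * N := by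
      rw [hU, Finset.card_range]
    rw [h5] at h4
    have h6 : ((U.powerset.filter fun J => J.card ≤ k).card : ℝ) ≤ ((9 * N + 1 : ℕ) : ℝ) ^ k := by
      exact_mod_cast h4
    refine h6.trans ?_
    apply pow_le_pow_left₀ (by positivity)
    push_cast
    linarith
  have hlogX : 0 ≤ 1 + Real.log X := by
    have := Real.log_natCast_nonneg X
    linarith
  calc ∑ k' ∈ T, (3 ^ (9 * k ^ 2) * κ) * (X * (1 / ((∏ p ∈ k'.1, nrm p : ℕ) : ℝ)))
      ≤ ∑ k' ∈ A ×ˢ (U.powerset.filter fun J => J.card ≤ k),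
        (3 ^ (9 * k ^ 2) * κ) * (X * (1 / ((∏ p ∈ k'.1, nrm p : ℕ) : ℝ))) :=
        Finset.sum_le_sum_of_subset_of_nonneg hsub fun _ _ _ => by positivity
    _ = ((U.powerset.filter fun J => J.card ≤ k).card : ℝ) * ((3 ^ (9 * k ^ 2) * κ) *
        (X * ∑ S ∈ A, 1 / ((∏ p ∈ S, nrm p : ℕ) : ℝ))) := by
        rw [Finset.sum_product]
        simp only [Finset.sum_const, nsmul_eq_mul]
        rw [← Finset.mul_sum, ← Finset.mul_sum, ← Finset.mul_sum]
    _ ≤ (9 * N + 9 : ℝ) ^ k * ((3 ^ (9 * k ^ 2) * κ) * (X * (64 * (1 + Real.log X)))) := by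
        have h4 := sum_inv hX hAp
        have h5 : (0 : ℝ) ≤ ∑ S ∈ A, 1 / ((∏ p ∈ S, nrm p : ℕ) : ℝ) :=
          Finset.sum_nonneg fun _ _ => by positivity
        gcongr
    _ = (9 * N + 9 : ℝ) ^ k * ((3 ^ (9 * k ^ 2) * 64) * κ) * (X * (1 + Real.log X)) := by ring
    _ ≤ (9 * N + 9 : ℝ) ^ k * (3 ^ (9 * k ^ 2 + 9) * κ) * (X * (1 + Real.log X)) := by
        have h6 : (3 : ℝ) ^ (9 * k ^ 2) * 64 ≤ 3 ^ (9 * k ^ 2 + 9) := by
          rw [pow_add]
          refine mul_le_mul_of_nonneg_left ?_ (by positivity)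
          norm_num
        gcongr

/-- **XK-KEY.** -/
theorem t_KEG (hB1 : S_BIL) {G : Finset Ei → Prop} {cc B : ℝ} (hB : BXG G cc B) (hB0 : 0 ≤ B) :
    KEG G cc B := by
  obtain ⟨C₁, hC₁, hb1⟩ := hB1
  refine ⟨C₁, hC₁, ?_⟩
  intro X z H k V N κ hX hH hz hκ h1 hN hV
  set T := (RR X z H k V).image (ky z H) with hT
  have hfib : ∀ P : Finset Ei → Prop, (((RR X z H k V).filter fun S => P S).card : ℝ) =
      ∑ k' ∈ T, (((RR X z H k V).filter fun S => ky z H S = k' ∧ P S).card : ℝ) := by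
    intro P
    rw [Finset.card_eq_sum_card_fiberwise (f := ky z H) (t := T) (by
      intro S hS
      rw [Finset.mem_coe, Finset.mem_filter] at hS
      exact Finset.mem_coe.2 (Finset.mem_image_of_mem _ hS.1))]
    push_cast
    refine Finset.sum_congr rfl fun k' _ => ?_
    congr 2
    ext S
    simp only [Finset.mem_filter]
    tauto
  have hall : ((RR X z H k V).card : ℝ) =
      ∑ k' ∈ T, (((RR X z H k V).filter fun S => ky z H S = k' ∧ True).card : ℝ) := by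
    rw [Finset.card_eq_sum_card_fiberwise (f := ky z H) (t := T) (by
      intro S hS
      exact Finset.mem_coe.2 (Finset.mem_image_of_mem _ hS))]
    push_cast
    exact Finset.sum_congr rfl fun k' _ => congrArg _ (fcc fun _ _ => by tauto)
  have q1 : (((RR X z H k V).filter fun S => Nd (sm z S) (la z S) ∧ G S).card : ℝ) =
      ∑ k' ∈ T, (((RR X z H k V).filter fun S => ky z H S = k' ∧
        (Nd (sm z S) (la z S) ∧ G S)).card : ℝ) :=
    (congrArg _ (fcc fun _ _ => Iff.rfl)).trans ((hfib fun S => Nd (sm z S) (la z S) ∧ G S).trans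
      (Finset.sum_congr rfl fun k' _ => congrArg _ (fcc fun _ _ => Iff.rfl)))
  rw [q1, hfib, Finset.mul_sum, ← Finset.sum_sub_distrib, hall, Finset.mul_sum]
  refine (Finset.abs_sum_le_sum_abs _ _).trans ?_
  have h3 : ∑ k' ∈ T, |(((RR X z H k V).filter fun S => ky z H S = k' ∧
      (Nd (sm z S) (la z S) ∧ G S)).card : ℝ) - cc * (((RR X z H k V).filter fun S =>
      ky z H S = k' ∧ Nd (sm z S) (la z S)).card : ℝ)| ≤
      ∑ k' ∈ T, (B * (1 / 3 : ℝ) ^ V * (((RR X z H k V).filter fun S =>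
      ky z H S = k' ∧ True).card : ℝ) +
      (3 ^ (9 * k ^ 2) * κ) * (X * (1 / ((∏ p ∈ k'.1, nrm p : ℕ) : ℝ)))) := by
    refine Finset.sum_le_sum fun k' hk => ?_
    obtain ⟨S₀, J⟩ := k'
    exact per_key hB hB0 hb1 hH hz hκ h1 hk hV
  refine h3.trans ?_
  rw [Finset.sum_add_distrib]
  refine add_le_add (le_refl _) ?_
  exact keg_err hX hH hz hκ hN fun k' hk => hk

end Pool.Agent.H462.CTU.Law
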